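import Pool.Agent.Y837.SV.Gen3

set_option autoImplicit false
set_option linter.unusedSectionVars false
set_option linter.unusedVariables false

/-! # The assembly, uniformly in the functions (project SW, helper837) -/

namespace Pool.Agent.Y837.SW

open Finset Filter
open Pool.Agent.H256R2.SC (ff crt_int)
open Pool.Agent.H256R2.SC.LG (ana)
open Pool.Agent.H378R2.QG (w0 ev_pow ev_more inj_of_small)
open Pool.Agent.Y837.SV

open scoped Classical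

theorem gen5 {ι : Type} [Fintype ι] (d : ℕ) (B : ℕ) (Ex : ι → Finset ℤ) (C δ : ℝ) (hC : 0 ≤ C) (hδ : 0 < δ)
    (hδ2 : δ ≤ 1 / 2) :
    ∃ c : ℝ, 0 < c ∧ ∃ Z₀ : ℝ, ∀ Z : ℕ, Z₀ ≤ Z →
    ∀ (φ : ι → ∀ p : ℕ, (Fin d → ZMod p) → ZMod p)
    (f : ι → (Fin d → ℤ) → ℤ), (∀ j (p : ℕ) x, ((f j x : ℤ) : ZMod p) = φ j p (red d p x)) →
    ∀ (v u : ℕ → Fin d → ℤ),
    (∀ p : ℕ, p.Prime → B < p → (p : ℝ) ≤ (Z : ℝ) ^ (1 / 10 : ℝ) → ∀ j, (p : ℤ) ∣ f j (v p)) →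
    (∀ p : ℕ, p.Prime → B < p → (p : ℝ) ≤ (Z : ℝ) ^ (1 / 10 : ℝ) → ∀ j, ¬ (p : ℤ) ∣ f j (u p)) →
    (∀ j, ∀ r ∈ Ex j, ∃ p : ℕ, p.Prime ∧ p ≤ B ∧ (p : ℤ) ∣ f j (u p) - r) →
    (∀ p : ℕ, p.Prime → B < p → (p : ℝ) ≤ (Z : ℝ) ^ (1 / 10 : ℝ) → ∀ j, ∀ r : ZMod p,
      (∀ v ∈ Ex j, r ≠ (v : ZMod p)) →
      |(p : ℝ) * (Nat.card {x : Fin d → ZMod p // φ j p x = r} : ℝ) - (p : ℝ) ^ d| ≤
        C * (p : ℝ) ^ d * (p : ℝ) ^ (-δ)) →
    (∀ p : ℕ, p.Prime → B < p → (p : ℝ) ≤ (Z : ℝ) ^ (1 / 10 : ℝ) → ∀ i j, i ≠ j → ∀ r s : ZMod p,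
      (∀ v ∈ Ex i, r ≠ (v : ZMod p)) → (∀ v ∈ Ex j, s ≠ (v : ZMod p)) →
      (p : ℝ) ^ 2 * (Nat.card {x : Fin d → ZMod p // φ i p x = r ∧ φ j p x = s} : ℝ) ≤
        C * (p : ℝ) ^ d) →
    ∀ M : Fin d → ℤ, ∃ x : Fin d → ℤ,
      (∀ i, M i < x i ∧ x i ≤ M i + Z) ∧
      (∀ j, f j x ≠ 0 ∧ (∃ p : ℕ, p.Prime ∧ B < p ∧ (p : ℝ) ≤ (Z : ℝ) ^ (1 / 10 : ℝ) ∧ (p : ℤ) ∣ f j x) ∧
        ∀ r ∈ Ex j, ∃ p : ℕ, p.Prime ∧ p ≤ B ∧ (p : ℤ) ∣ f j x - r) ∧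
      ∀ j, ∀ h : ℤ, |(h : ℝ)| ≤ c * ff Z →
        ∃ p : ℕ, p.Prime ∧ (p : ℝ) ≤ (Z : ℝ) ^ (1 / 10 : ℝ) ∧ (p : ℤ) ∣ f j x + h := by
  obtain ⟨c₀, hc₀, X₁, hcov⟩ := mcov d (2 * C) δ (by positivity) hδ
  obtain ⟨Cs, hCs, y₀, hsur⟩ := survivors2 B
  obtain ⟨y₁, hw⟩ := ev_w0
  obtain ⟨B', hB'1, hB'2⟩ := Nat.exists_infinite_primes (B + 1)
  obtain ⟨y₂, hw2⟩ := ev_w0_large B'
  obtain ⟨c₁, hc₁def⟩ : ∃ c₁ : ℝ, c₁ = min c₀ 1 / ((Fintype.card ι : ℝ) + 1) := ⟨_, rfl⟩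
  have hm0 : 0 < min c₀ 1 := lt_min hc₀ one_pos
  have hι0 : (0 : ℝ) < (Fintype.card ι : ℝ) + 1 := by positivity
  have hc₁ : 0 < c₁ := by rw [hc₁def]; positivity
  obtain ⟨c, hc, X₂, hana⟩ := ana (y₀ := max y₀ (max (max y₁ y₂) 10)) hc₁ hCs
  obtain ⟨X₃, hev⟩ := ev_pow
  obtain ⟨L₁, hmore⟩ := ev_more 1 one_pos
  obtain ⟨V, hV⟩ : ∃ V : ℝ, V = ∑ j : ι, ∑ v ∈ Ex j, |(v : ℝ)| := ⟨_, rfl⟩
  have hVb : ∀ j, ∀ v ∈ Ex j, |(v : ℝ)| ≤ V := by
    intro j v hv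
    have h1 := Finset.single_le_sum (f := fun v : ℤ => |(v : ℝ)|) (fun _ _ => abs_nonneg _) hv
    have h2 := Finset.single_le_sum (f := fun j : ι => ∑ v ∈ Ex j, |(v : ℝ)|)
      (fun _ _ => Finset.sum_nonneg fun _ _ => abs_nonneg _) (mem_univ j)
    rw [hV]
    exact h1.trans h2
  refine ⟨c, hc, max (max (max X₁ X₂) X₃) (Real.exp (max L₁ (max V 1))), fun Z hZ' φ f hf v u hv hu hEx hU hP M => ?_⟩
  obtain ⟨hZ1, hZ4⟩ := max_le_iff.1 hZ'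
  obtain ⟨hZ2, hZ3⟩ := max_le_iff.1 hZ1
  obtain ⟨hZa, hZb⟩ := max_le_iff.1 hZ2
  obtain ⟨R, hR⟩ : ∃ R : ℕ, R = ⌊c * ff Z⌋₊ := ⟨_, rfl⟩
  obtain ⟨L, hL⟩ : ∃ L : ℝ, L = Real.log Z := ⟨_, rfl⟩
  obtain ⟨y, hy⟩ : ∃ y : ℝ, y = Real.log Z / 10 := ⟨_, rfl⟩
  obtain ⟨a1, a2, a3, a4, a5, a6, a7, a8, a9, a10, a11, a12, a13, a14, a15, a16, a17⟩ :=
    hana Z hZb y _ hy rfl R hR
  obtain ⟨b1, b2, b3, b4⟩ := hev Z hZ3
  obtain ⟨a3a, a3b⟩ := max_le_iff.1 a3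
  obtain ⟨a3b, a3c⟩ := max_le_iff.1 a3b
  obtain ⟨a3b, a3d⟩ := max_le_iff.1 a3b
  have hB'w : (B' : ℝ) ≤ w0 y := hw2 y a3d
  have hBw : (B : ℝ) ≤ w0 y := by
    have : (B : ℝ) ≤ B' := by exact_mod_cast (by omega : B ≤ B')
    linarith
  have hs := hsur y a3a R a5 a7
  rw [← hL] at b1 b3
  have hZ0 : (0 : ℝ) < Z := by linarith
  have hLL' : max L₁ (max V 1) ≤ L := by
    rw [hL, ← Real.log_exp (max L₁ (max V 1))]
    exact Real.log_le_log (Real.exp_pos _) hZ4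
  have hLL : L₁ ≤ L := (le_max_left _ _).trans hLL'
  have hVL : V ≤ L := ((le_max_left _ _).trans (le_max_right _ _)).trans hLL'
  have hL1 : 1 ≤ L := ((le_max_right _ _).trans (le_max_right _ _)).trans hLL'
  obtain ⟨-, -, k3⟩ := hmore L hLL
  have hwy : w0 y ≤ y := by
    have := hw y a3b
    linarith
  have hyZ : y ≤ (Z : ℝ) ^ (1 / 10 : ℝ) := by
    have h1 := Real.log_le_rpow_div hZ0.le (show (0 : ℝ) < 1 / 10 by norm_num)
    rw [hy]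
    linarith
  have hBp : ∀ p : ℕ, (Real.log Z) ^ 2 < p → B < p := by
    intro p hp
    have h1 : (B : ℝ) < p := by linarith
    exact_mod_cast h1
  -- the local classes
  obtain ⟨uc, huc⟩ : ∃ uc : ℕ → Fin d → ℤ, uc = fun p : ℕ => if (p : ℝ) ≤ w0 y then u p else v p := ⟨_, rfl⟩
  have huc1 : ∀ p : ℕ, (p : ℝ) ≤ w0 y → uc p = u p := by
    intro p hp; rw [huc]; simp only; rw [if_pos hp]
  have huc2 : ∀ p : ℕ, w0 y < (p : ℝ) → uc p = v p := by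
    intro p hp; rw [huc]; simp only; rw [if_neg (not_le.2 hp)]
  -- the small primes
  obtain ⟨P, hP'⟩ : ∃ P : ℕ, P = primorial ⌊y⌋₊ := ⟨_, rfl⟩
  have hP0 : 0 < P := by rw [hP']; exact primorial_pos _
  have hPdvd : ∀ p : ℕ, p.Prime → (p : ℝ) ≤ y → (p : ℤ) ∣ (P : ℤ) := by
    intro p hp hpy
    have hpy' : p ≤ ⌊y⌋₊ := Nat.le_floor hpy
    rw [hP', primorial]
    have : p ∈ (Finset.range (⌊y⌋₊ + 1)).filter Nat.Prime := by
      rw [Finset.mem_filter, Finset.mem_range]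
      exact ⟨by omega, hp⟩
    exact_mod_cast Finset.dvd_prod_of_mem _ this
  have hcrt : ∀ i : Fin d, ∃ r : ℤ, ∀ p ∈ (Finset.range (⌊y⌋₊ + 1)).filter Nat.Prime,
      ((p : ℕ) : ℤ) ∣ r - uc p i := by
    intro i
    refine crt_int ((Finset.range (⌊y⌋₊ + 1)).filter Nat.Prime) (fun p : ℕ => (p : ℤ)) ?_ (fun p => uc p i)
    intro p hp q hq hpq
    exact Nat.isCoprime_iff_coprime.2
      ((Nat.coprime_primes (mem_filter.1 hp).2 (mem_filter.1 hq).2).2 hpq)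
  choose b0 hb0 using hcrt
  -- the survivors
  obtain ⟨S₀, hS₀⟩ : ∃ S₀ : ι → Finset ℤ, S₀ = fun j => (Finset.Icc (-(R : ℤ)) R).filter (fun h => h ≠ 0 ∧
      (∀ p : ℕ, p.Prime → B < p → (p : ℝ) ≤ w0 y → ¬ ((p : ℤ) ∣ f j (u p) + h)) ∧
      ∀ p : ℕ, p.Prime → w0 y < p → (p : ℝ) ≤ y → ¬ (p : ℤ) ∣ h) := ⟨_, rfl⟩
  have hS₀card : ∀ j, ((S₀ j).card : ℝ) ≤ c₁ * Real.log Z := by
    intro j
    refine le_trans ?_ ((hs (fun p => f j (u p)) (fun p hp h1 h2 => hu p hp h1 ((h2.trans hwy).trans hyZ) j)).trans a8)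
    rw [hS₀]
  have hS₀b : ∀ j, ∀ h ∈ S₀ j, h ≠ 0 ∧ |(h : ℝ)| ≤ L ^ (11 / 10 : ℝ) := by
    intro j h hh
    rw [hS₀] at hh
    simp only at hh
    rw [Finset.mem_filter, Finset.mem_Icc] at hh
    refine ⟨hh.2.1, ?_⟩
    have h1 : |h| ≤ (R : ℤ) := abs_le.mpr hh.1
    have h2 : |(h : ℝ)| ≤ (R : ℝ) := by exact_mod_cast h1
    refine h2.trans (a7.trans ?_)
    rw [hy, hL]
    exact b2
  obtain ⟨T, hT⟩ : ∃ T : Finset (ι × ℤ), T = (univ.biUnion (fun j => (S₀ j).image (fun h => (j, h)))).filter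
      (fun k => -k.2 ∉ Ex k.1) := ⟨_, rfl⟩
  have hTmem : ∀ k : ι × ℤ, k ∈ T ↔ k.2 ∈ S₀ k.1 ∧ -k.2 ∉ Ex k.1 := by
    intro k
    rw [hT, mem_filter, mem_biUnion]
    constructor
    · rintro ⟨⟨j, -, hj⟩, h0⟩
      rw [mem_image] at hj
      obtain ⟨h, hh, rfl⟩ := hj
      exact ⟨hh, h0⟩
    · rintro ⟨h, h0⟩
      exact ⟨⟨k.1, mem_univ _, mem_image.2 ⟨k.2, h, rfl⟩⟩, h0⟩
  have hTb : ∀ k ∈ T, k.2 ≠ 0 ∧ |(k.2 : ℝ)| ≤ L ^ (11 / 10 : ℝ) := by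
    intro k hk
    exact hS₀b _ _ ((hTmem k).1 hk).1
  have hTcard : (T.card : ℝ) ≤ min c₀ 1 * Real.log Z := by
    have h1 : T.card ≤ ∑ j : ι, (S₀ j).card := by
      rw [hT]
      refine (card_filter_le _ _).trans ?_
      refine card_biUnion_le.trans ?_
      exact Finset.sum_le_sum fun j _ => card_image_le
    have h2 : (T.card : ℝ) ≤ ∑ j : ι, ((S₀ j).card : ℝ) := by exact_mod_cast h1
    calc (T.card : ℝ) ≤ ∑ j : ι, ((S₀ j).card : ℝ) := h2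
      _ ≤ ∑ j : ι, (c₁ * Real.log Z) := Finset.sum_le_sum fun j _ => hS₀card j
      _ = Fintype.card ι * (c₁ * Real.log Z) := by
          rw [Finset.sum_const, card_univ, nsmul_eq_mul]
      _ ≤ ((Fintype.card ι : ℝ) + 1) * (c₁ * Real.log Z) := by
          apply mul_le_mul_of_nonneg_right (by linarith)
          have : 0 ≤ Real.log Z := a2
          positivity
      _ = min c₀ 1 * Real.log Z := by
          rw [hc₁def]
          field_simp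
  have hTL : (T.card : ℝ) ≤ L := by
    refine hTcard.trans ?_
    rw [← hL]
    calc min c₀ 1 * L ≤ 1 * L := mul_le_mul_of_nonneg_right (min_le_right _ _) (by linarith)
      _ = L := one_mul L
  have hL110 : 0 ≤ L ^ (11 / 10 : ℝ) := Real.rpow_nonneg (by linarith) _
  obtain ⟨x, hx1, hx2, hx3⟩ := hcov Z hZa {k // k ∈ T} (by
      rw [Fintype.card_coe]
      refine hTcard.trans ?_
      exact mul_le_mul_of_nonneg_right (min_le_left _ _) a2)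
    (fun p => colF φ T p)
    (by
      intro p hp hp1 hp2 k
      have hBp' := hBp p hp1
      rw [← hL] at hp1
      have hne : ∀ k ∈ T, ∀ v ∈ Ex k.1, -((k.2 : ℤ) : ZMod p) ≠ (v : ZMod p) := by
        intro k hk v hv heq
        obtain ⟨h1, h2⟩ := (hTmem k).1 hk
        have h3 : (p : ℤ) ∣ k.2 - (-v) := by
          rw [← ZMod.intCast_zmod_eq_zero_iff_dvd]
          push_cast
          have : ((k.2 : ℤ) : ZMod p) = -(v : ZMod p) := by rw [← heq, neg_neg]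
          rw [this]
          ring
        refine inj_of_small k3 (hTb k hk).2 (sh₂ := -v) ?_ ?_ hp1 h3
        · push_cast
          rw [abs_neg]
          refine ((hVb _ v hv).trans hVL).trans ?_
          calc L = L ^ (1 : ℝ) := (Real.rpow_one L).symm
            _ ≤ L ^ (11 / 10 : ℝ) := Real.rpow_le_rpow_of_exponent_le hL1 (by norm_num)
        · intro h
          apply h2
          rw [h, neg_neg]
          exact hv
      refine dens_bound2 φ C δ hC hδ2 p hp T ?_ ?_ ?_ ?_ k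
      · intro k hk
        exact hU p hp hBp' hp2 k.1 _ (hne k hk)
      · intro k hk k' hk' hkk
        exact hP p hp hBp' hp2 k.1 k'.1 hkk _ _ (hne k hk) (hne k' hk')
      · intro k hk k' hk' hkk hne
        refine inj_of_small k3 (hTb k hk).2 (hTb k' hk').2 (fun h => hne (Prod.ext hkk h)) hp1
      · have : (T.card : ℝ) ^ 2 ≤ L ^ 2 := pow_le_pow_left₀ (Nat.cast_nonneg _) hTL 2
        linarith)
    P hP0 (by rw [hP']; exact a11)
    (by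
      intro p hp hpP
      rw [hP', primorial, Prime.dvd_finsetProd_iff hp.prime] at hpP
      obtain ⟨p', hp', hpp'⟩ := hpP
      rw [Finset.mem_filter, Finset.mem_range] at hp'
      have h4 : p = p' := (Nat.prime_dvd_prime_iff_eq hp hp'.2).1 hpp'
      have h5 : (p : ℝ) ≤ y := by
        have : p ≤ ⌊y⌋₊ := by omega
        calc (p : ℝ) ≤ (⌊y⌋₊ : ℝ) := by exact_mod_cast this
          _ ≤ y := Nat.floor_le a4
      linarith)
    b0 M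
  -- the value modulo a small prime
  have hval : ∀ j, ∀ p : ℕ, p.Prime → (p : ℝ) ≤ y → (p : ℤ) ∣ f j x - f j (uc p) := by
    intro j p hp hpy
    have h1 : red d p x = red d p (uc p) := by
      funext i
      have h2 : (p : ℤ) ∣ x i - b0 i := (hPdvd p hp hpy).trans (hx2 i)
      have h3 : (p : ℤ) ∣ b0 i - uc p i := hb0 i p (by
        have hpy' : p ≤ ⌊y⌋₊ := Nat.le_floor hpy
        rw [Finset.mem_filter, Finset.mem_range]
        exact ⟨by omega, hp⟩)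
      have h4 : (p : ℤ) ∣ x i - uc p i := by
        have := dvd_add h2 h3
        have e : x i - b0 i + (b0 i - uc p i) = x i - uc p i := by ring
        rwa [e] at this
      have h5 := (ZMod.intCast_zmod_eq_zero_iff_dvd _ p).2 h4
      push_cast at h5
      exact sub_eq_zero.1 h5
    rw [← ZMod.intCast_zmod_eq_zero_iff_dvd]
    push_cast
    rw [hf, hf, h1, sub_self]
  have hmed : ∀ j, ∀ p : ℕ, p.Prime → w0 y < (p : ℝ) → (p : ℝ) ≤ y → (p : ℤ) ∣ f j x := by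
    intro j p hp h1 h2
    have h3 := hval j p hp h2
    rw [huc2 p h1] at h3
    have h4 : B < p := by
      have : (B : ℝ) < p := lt_of_le_of_lt hBw h1
      exact_mod_cast this
    have h5 := dvd_add h3 (hv p hp h4 (h2.trans hyZ) j)
    rwa [sub_add_cancel] at h5
  have hsml : ∀ j, ∀ p : ℕ, p.Prime → (p : ℝ) ≤ w0 y → (p : ℤ) ∣ f j x - f j (u p) := by
    intro j p hp h1
    have h3 := hval j p hp (h1.trans hwy)
    rwa [huc1 p h1] at h3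
  refine ⟨x, hx1, fun j => ⟨?_, ?_, ?_⟩, fun j h hh => ?_⟩
  · intro h0
    have h1 := hsml j B' hB'2 hB'w
    rw [h0, zero_sub, dvd_neg] at h1
    exact hu B' hB'2 (by omega) ((hB'w.trans hwy).trans hyZ) j h1
  · obtain ⟨p, hp, hp1, hp2⟩ := exists_medium a3c (hw y a3b)
    refine ⟨p, hp, ?_, hp2.trans hyZ, hmed j p hp hp1 hp2⟩
    have : (B : ℝ) < p := lt_of_le_of_lt hBw hp1
    exact_mod_cast this
  · intro r hr
    obtain ⟨p, hp, hp1, hp2⟩ := hEx j r hr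
    refine ⟨p, hp, hp1, ?_⟩
    have hpw : (p : ℝ) ≤ w0 y := by
      have : (p : ℝ) ≤ B := by exact_mod_cast hp1
      linarith
    have h1 := dvd_add (hsml j p hp hpw) hp2
    have e : f j x - f j (u p) + (f j (u p) - r) = f j x - r := by ring
    rwa [e] at h1
  have hhR : |h| ≤ (R : ℤ) := by
    have h1 : (h.natAbs : ℝ) ≤ c * ff Z := by
      rw [Nat.cast_natAbs]
      push_cast
      exact hh
    have h2 : h.natAbs ≤ R := by rw [hR]; exact Nat.le_floor h1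
    rw [Int.abs_eq_natAbs]
    exact_mod_cast h2
  by_cases h0 : h = 0
  · -- a medium prime
    obtain ⟨p, hp, hp1, hp2⟩ := exists_medium a3c (hw y a3b)
    refine ⟨p, hp, hp2.trans hyZ, ?_⟩
    rw [h0, add_zero]
    exact hmed j p hp hp1 hp2
  by_cases hex : -h ∈ Ex j
  · obtain ⟨p, hp, hp1, hp2⟩ := hEx j _ hex
    have hpw : (p : ℝ) ≤ w0 y := by
      have : (p : ℝ) ≤ B := by exact_mod_cast hp1
      linarith
    refine ⟨p, hp, (hpw.trans hwy).trans hyZ, ?_⟩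
    have h1 := dvd_add (hsml j p hp hpw) hp2
    have e : f j x - f j (u p) + (f j (u p) - -h) = f j x + h := by ring
    rwa [e] at h1
  by_cases hmem' : h ∈ S₀ j
  · have hmem : ((j, h) : ι × ℤ) ∈ T := by
      rw [hTmem]
      exact ⟨hmem', hex⟩
    obtain ⟨p, hp1, hp2, hp3, hp4⟩ := hx3 ⟨(j, h), hmem⟩
    refine ⟨p, hp1, hp3, ?_⟩
    have h1 := colF_kill hp4
    unfold kill at h1
    simp only at h1
    rw [← ZMod.intCast_zmod_eq_zero_iff_dvd]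
    push_cast
    rw [hf]
    exact h1
  · rw [hS₀] at hmem'
    simp only at hmem'
    rw [Finset.mem_filter, Finset.mem_Icc] at hmem'
    by_cases hc1 : ∃ p : ℕ, p.Prime ∧ (p : ℝ) ≤ w0 y ∧ (p : ℤ) ∣ f j (u p) + h
    · obtain ⟨p, hp, hp1, hp2⟩ := hc1
      refine ⟨p, hp, (hp1.trans hwy).trans hyZ, ?_⟩
      have h1 := dvd_add (hsml j p hp hp1) hp2
      have e : f j x - f j (u p) + (f j (u p) + h) = f j x + h := by ring
      rwa [e] at h1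
    by_cases hc2 : ∃ p : ℕ, p.Prime ∧ w0 y < (p : ℝ) ∧ (p : ℝ) ≤ y ∧ (p : ℤ) ∣ h
    · obtain ⟨p, hp, hp1, hp2, hp3⟩ := hc2
      refine ⟨p, hp, hp2.trans hyZ, ?_⟩
      exact dvd_add (hmed j p hp hp1 hp2) hp3
    exfalso
    apply hmem'
    push Not at hc1 hc2
    exact ⟨abs_le.1 hhR, h0, fun p hp _ hp2 => hc1 p hp hp2, fun p hp hp1 hp2 => hc2 p hp hp1 hp2⟩


end Pool.Agent.Y837.SW
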