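import Pool.Agent.Y837.SV.First

set_option autoImplicit false
set_option linter.unusedVariables false

/-! # The record scale at powers (project SW, helper837) -/

namespace Pool.Agent.Y837.SW

open Filter
open Pool.Agent.H256R2.SC (ff)

theorem ff_pow (η : ℝ) (hη : 0 < η) (hη1 : η ≤ 1) : ∃ X₀ : ℝ, ∀ X : ℝ, X₀ ≤ X → η / 8 * ff X ≤ ff (X ^ η) := by
  obtain ⟨t₀, ht₀⟩ : ∃ t₀ : ℝ, t₀ = max (2 * |Real.log η|) (Real.exp (Real.exp (Real.exp 1))) := ⟨_, rfl⟩
  refine ⟨Real.exp (Real.exp t₀), fun X hX => ?_⟩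
  have hX0 : 0 < X := lt_of_lt_of_le (Real.exp_pos _) hX
  obtain ⟨L, hL⟩ : ∃ L, L = Real.log X := ⟨_, rfl⟩
  have hL1 : Real.exp t₀ ≤ L := by
    rw [hL, ← Real.log_exp (Real.exp t₀)]
    exact Real.log_le_log (Real.exp_pos _) hX
  have hL0 : 0 < L := lt_of_lt_of_le (Real.exp_pos _) hL1
  obtain ⟨t, ht⟩ : ∃ t, t = Real.log L := ⟨_, rfl⟩
  have ht1 : t₀ ≤ t := by
    rw [ht, ← Real.log_exp t₀]
    exact Real.log_le_log (Real.exp_pos _) hL1
  have ht2 : 2 * |Real.log η| ≤ t := by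
    refine le_trans ?_ ht1
    rw [ht₀]; exact le_max_left _ _
  have ht3 : Real.exp (Real.exp (Real.exp 1)) ≤ t := by
    refine le_trans ?_ ht1
    rw [ht₀]; exact le_max_right _ _
  have e1 : (2 : ℝ) ≤ Real.exp 1 := by linarith [Real.add_one_le_exp (1 : ℝ)]
  have e2 : (3 : ℝ) ≤ Real.exp (Real.exp 1) := by linarith [Real.add_one_le_exp (Real.exp 1)]
  have e3 : (4 : ℝ) ≤ Real.exp (Real.exp (Real.exp 1)) := by linarith [Real.add_one_le_exp (Real.exp (Real.exp 1))]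
  have ht0 : 0 < t := by linarith
  obtain ⟨s, hs⟩ : ∃ s, s = Real.log t := ⟨_, rfl⟩
  have hs1 : Real.exp (Real.exp 1) ≤ s := by
    rw [hs, ← Real.log_exp (Real.exp (Real.exp 1))]
    exact Real.log_le_log (Real.exp_pos _) ht3
  have hs3 : 3 ≤ s := e2.trans hs1
  have hs0 : 0 < s := by linarith
  have hlogη : Real.log η ≤ 0 := Real.log_nonpos hη.le hη1
  have habs : |Real.log η| = -Real.log η := abs_of_nonpos hlogη
  rw [habs] at ht2
  obtain ⟨t', ht'⟩ : ∃ t', t' = t + Real.log η := ⟨_, rfl⟩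
  have ht'1 : t / 2 ≤ t' := by rw [ht']; linarith
  have ht'2 : t' ≤ t := by rw [ht']; linarith
  have ht'0 : 0 < t' := by linarith
  obtain ⟨s', hs'⟩ : ∃ s', s' = Real.log t' := ⟨_, rfl⟩
  have hs'2 : s' ≤ s := by
    rw [hs', hs]
    exact Real.log_le_log ht'0 ht'2
  have hs'1 : s - 1 ≤ s' := by
    have h1 : Real.log (t / 2) ≤ s' := by
      rw [hs']
      exact Real.log_le_log (by linarith) ht'1
    rw [Real.log_div (by linarith) (by norm_num)] at h1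
    have h2 : Real.log 2 ≤ 1 := by linarith [Real.log_two_lt_d9]
    rw [hs]
    linarith
  have hs'0 : 0 < s' := by linarith
  have hsq : s ≤ s' ^ 2 := by nlinarith
  have hls : Real.log s ≤ 2 * Real.log s' := by
    have h1 := Real.log_le_log hs0 hsq
    rw [Real.log_pow] at h1
    exact_mod_cast h1
  have hls0 : 0 ≤ Real.log s := Real.log_nonneg (by linarith)
  have hX' : Real.log (X ^ η) = η * L := by rw [Real.log_rpow hX0, hL]
  have hX'' : Real.log (η * L) = t' := by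
    rw [Real.log_mul hη.ne' hL0.ne', ht', ht]
    ring
  have f1 : ff X = L * t ^ 2 * Real.log s / s ^ 2 := by
    unfold ff
    rw [← hL, ← ht, ← hs]
  have f2 : ff (X ^ η) = (η * L) * t' ^ 2 * Real.log s' / s' ^ 2 := by
    unfold ff
    rw [hX', hX'', ← hs']
  rw [f1, f2]
  have h1 : L * t ^ 2 * Real.log s / s ^ 2 ≤ L * t ^ 2 * Real.log s / s' ^ 2 := by
    apply div_le_div_of_nonneg_left (by positivity) (by positivity)
    exact pow_le_pow_left₀ hs'0.le hs'2 2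
  have h2 : t ^ 2 ≤ 4 * t' ^ 2 := by nlinarith
  have h3 : t ^ 2 * Real.log s ≤ (4 * t' ^ 2) * (2 * Real.log s') :=
    mul_le_mul h2 hls hls0 (by positivity)
  calc η / 8 * (L * t ^ 2 * Real.log s / s ^ 2) ≤ η / 8 * (L * t ^ 2 * Real.log s / s' ^ 2) :=
        mul_le_mul_of_nonneg_left h1 (by positivity)
    _ = η * L * (t ^ 2 * Real.log s) / (8 * s' ^ 2) := by
        field_simp
    _ ≤ η * L * ((4 * t' ^ 2) * (2 * Real.log s')) / (8 * s' ^ 2) := by
        apply div_le_div_of_nonneg_right _ (by positivity)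
        exact mul_le_mul_of_nonneg_left h3 (by positivity)
    _ = (η * L) * t' ^ 2 * Real.log s' / s' ^ 2 := by
        field_simp
        ring

theorem ff_floor (θ : ℝ) (hθ : 0 < θ) (hθ1 : θ ≤ 1) :
    ∃ X₀ : ℝ, ∀ X : ℝ, X₀ ≤ X → θ / 16 * ff X ≤ ff (⌊X ^ θ⌋₊ : ℝ) := by
  obtain ⟨X₁, h1⟩ := ff_pow (θ / 2) (by positivity) (by linarith)
  obtain ⟨X₂, h2⟩ := Pool.Agent.Y837.SV.ff_mono
  have ev : ∀ᶠ X : ℝ in atTop, X₂ ≤ X ^ (θ / 2) := (tendsto_rpow_atTop (by positivity)).eventually_ge_atTop X₂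
  have ev2 : ∀ᶠ X : ℝ in atTop, 2 ≤ X ^ (θ / 2) := (tendsto_rpow_atTop (by positivity)).eventually_ge_atTop 2
  obtain ⟨X₃, h3⟩ := eventually_atTop.1 (ev.and ev2)
  refine ⟨max X₁ (max X₃ 1), fun X hX => ?_⟩
  have hXa : X₁ ≤ X := (le_max_left _ _).trans hX
  have hXb : X₃ ≤ X := ((le_max_left _ _).trans (le_max_right _ _)).trans hX
  have hXc : 1 ≤ X := ((le_max_right _ _).trans (le_max_right _ _)).trans hX
  obtain ⟨h4, h5⟩ := h3 X hXb
  have h6 : X ^ (θ / 2) ≤ (⌊X ^ θ⌋₊ : ℝ) := by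
    have h7 : X ^ θ < (⌊X ^ θ⌋₊ : ℝ) + 1 := Nat.lt_floor_add_one _
    have h8 : X ^ θ = X ^ (θ / 2) * X ^ (θ / 2) := by
      rw [← Real.rpow_add (by linarith)]
      ring_nf
    nlinarith
  have h7 := h2 _ _ h4 h6
  have h8 := h1 X hXa
  have e : θ / 2 / 8 = θ / 16 := by ring
  rw [e] at h8
  exact h8.trans h7

end Pool.Agent.Y837.SW
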