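import Pool.Agent.Y837.SW.Asm
import Pool.Agent.Y837.SW.Gen5
import Pool.Agent.Y837.SW.Scale

set_option autoImplicit false
set_option linter.unusedVariables false

/-! # Least primes in the residue classes of the values of squarefree forms (project SW, helper837) -/

namespace Pool.Agent.Y837.SW

open Finset
open Pool.Agent.H256R2.SC (ff)
open Pool.Agent.Y837.SV (rp rp_eval rp_int rp_degree scale_aeval red avoid)

open Classical in
/-- the constants of a family -/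
theorem family_consts {ι : Type} [Fintype ι] (d : ℕ) (F : ι → MvPolynomial (Fin d) ℤ)
    (hU : ∀ j, ∃ C : ℝ, 0 ≤ C ∧ ∃ B₀ : ℕ, ∀ p : ℕ, ∀ [Fact p.Prime], B₀ < p → ∀ r : ZMod p, r ≠ 0 →
      |(p : ℝ) * ((univ.filter (fun x : Fin d → ZMod p => MvPolynomial.aeval x (F j) = r)).card : ℝ) -
        (p : ℝ) ^ d| * Real.sqrt p ≤ C * (p : ℝ) ^ d)
    (hP : ∀ i j, i ≠ j → ∃ C : ℝ, 0 ≤ C ∧ ∃ B₀ : ℕ, ∀ p : ℕ, ∀ [Fact p.Prime], B₀ < p → ∀ r s : ZMod p,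
      r ≠ 0 → s ≠ 0 →
      (p : ℝ) ^ 2 * ((univ.filter (fun x : Fin d → ZMod p => MvPolynomial.aeval x (F i) = r ∧
        MvPolynomial.aeval x (F j) = s)).card : ℝ) ≤ C * (p : ℝ) ^ d) :
    ∃ K : ℝ, 0 ≤ K ∧ ∃ B₀ : ℕ, ∀ p : ℕ, p.Prime → B₀ < p →
      (∀ j, ∀ r : ZMod p, r ≠ 0 →
        |(p : ℝ) * (Nat.card {x : Fin d → ZMod p // MvPolynomial.aeval x (F j) = r} : ℝ) - (p : ℝ) ^ d| ≤
          K * (p : ℝ) ^ d * (p : ℝ) ^ (-(1 / 2) : ℝ)) ∧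
      (∀ i j, i ≠ j → ∀ r s : ZMod p, r ≠ 0 → s ≠ 0 →
        (p : ℝ) ^ 2 * (Nat.card {x : Fin d → ZMod p // MvPolynomial.aeval x (F i) = r ∧
          MvPolynomial.aeval x (F j) = s} : ℝ) ≤ K * (p : ℝ) ^ d) := by
  choose C₁ hC₁ B₁ hB₁ using hU
  have hP' : ∀ i j, ∃ C : ℝ, 0 ≤ C ∧ ∃ B₀ : ℕ, i ≠ j → ∀ p : ℕ, ∀ [Fact p.Prime], B₀ < p → ∀ r s : ZMod p,
      r ≠ 0 → s ≠ 0 →
      (p : ℝ) ^ 2 * ((univ.filter (fun x : Fin d → ZMod p => MvPolynomial.aeval x (F i) = r ∧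
        MvPolynomial.aeval x (F j) = s)).card : ℝ) ≤ C * (p : ℝ) ^ d := by
    intro i j
    by_cases h : i = j
    · exact ⟨0, le_rfl, 0, fun h' => absurd h h'⟩
    · obtain ⟨C, hC, B, hB⟩ := hP i j h
      exact ⟨C, hC, B, fun _ => hB⟩
  choose C₂ hC₂ B₂ hB₂ using hP'
  obtain ⟨K, hK⟩ : ∃ K : ℝ, K = ∑ j : ι, C₁ j + ∑ i : ι, ∑ j : ι, C₂ i j := ⟨_, rfl⟩
  obtain ⟨B₀, hB₀⟩ : ∃ B₀ : ℕ, B₀ = ∑ j : ι, B₁ j + ∑ i : ι, ∑ j : ι, B₂ i j := ⟨_, rfl⟩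
  have hs1 : 0 ≤ ∑ j : ι, C₁ j := Finset.sum_nonneg fun j _ => hC₁ j
  have hs2 : 0 ≤ ∑ i : ι, ∑ j : ι, C₂ i j :=
    Finset.sum_nonneg fun i _ => Finset.sum_nonneg fun j _ => hC₂ i j
  have hK1 : ∀ j, C₁ j ≤ K := by
    intro j
    have := Finset.single_le_sum (f := C₁) (fun j _ => hC₁ j) (mem_univ j)
    rw [hK]
    linarith
  have hK2 : ∀ i j, C₂ i j ≤ K := by
    intro i j
    have a4 := Finset.single_le_sum (f := fun j : ι => C₂ i j) (fun j _ => hC₂ i j) (mem_univ j)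
    have a5 := Finset.single_le_sum (f := fun i : ι => ∑ j : ι, C₂ i j)
      (fun i _ => Finset.sum_nonneg fun j _ => hC₂ i j) (mem_univ i)
    rw [hK]
    linarith
  have hb1 : ∀ j, B₁ j ≤ B₀ := by
    intro j
    have := Finset.single_le_sum (f := B₁) (fun j _ => Nat.zero_le _) (mem_univ j)
    rw [hB₀]
    omega
  have hb2 : ∀ i j, B₂ i j ≤ B₀ := by
    intro i j
    have a4 := Finset.single_le_sum (f := fun j : ι => B₂ i j) (fun j _ => Nat.zero_le _) (mem_univ j)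
    have a5 := Finset.single_le_sum (f := fun i : ι => ∑ j : ι, B₂ i j)
      (fun i _ => Nat.zero_le _) (mem_univ i)
    rw [hB₀]
    omega
  refine ⟨K, by rw [hK]; linarith, B₀, fun p hp hBp => ⟨?_, ?_⟩⟩
  · intro j r hr
    have : Fact p.Prime := ⟨hp⟩
    have hp0 : (0 : ℝ) < p := by exact_mod_cast hp.pos
    have hs0 : 0 < Real.sqrt p := Real.sqrt_pos.2 hp0
    have h1 := hB₁ j p (lt_of_le_of_lt (hb1 j) hBp) r hr
    rw [Nat.card_eq_fintype_card, Fintype.card_subtype]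
    have h2 : |(p : ℝ) * ((univ.filter (fun x : Fin d → ZMod p => MvPolynomial.aeval x (F j) = r)).card : ℝ) -
        (p : ℝ) ^ d| ≤ C₁ j * (p : ℝ) ^ d / Real.sqrt p := by
      rw [le_div_iff₀ hs0]
      exact h1
    refine le_trans ?_ (h2.trans ?_)
    · exact le_of_eq (by congr!)
    · have h3 : (p : ℝ) ^ (-(1 / 2) : ℝ) = 1 / Real.sqrt p := by
        rw [Real.rpow_neg hp0.le, ← Real.sqrt_eq_rpow, one_div]
      rw [h3, ← mul_div_assoc, mul_one]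
      apply div_le_div_of_nonneg_right _ hs0.le
      exact mul_le_mul_of_nonneg_right (hK1 j) (by positivity)
  · intro i j hij r s hr hs
    have : Fact p.Prime := ⟨hp⟩
    have h1 := hB₂ i j hij p (lt_of_le_of_lt (hb2 i j) hBp) r s hr hs
    rw [Nat.card_eq_fintype_card, Fintype.card_subtype]
    refine le_trans ?_ (h1.trans ?_)
    · exact le_of_eq (by congr!)
    · exact mul_le_mul_of_nonneg_right (hK2 i j) (by positivity)

/-- values in a box at the origin -/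
theorem eval_bound {n : ℕ} (F : MvPolynomial (Fin n) ℤ) : ∃ A : ℝ, 0 ≤ A ∧ ∀ (Z : ℕ), 1 ≤ Z → ∀ x : Fin n → ℤ,
    (∀ i, 0 < x i ∧ x i ≤ Z) → |((MvPolynomial.eval x F : ℤ) : ℝ)| ≤ A * (Z : ℝ) ^ F.totalDegree := by
  refine ⟨∑ e ∈ F.support, |((F.coeff e : ℤ) : ℝ)|, Finset.sum_nonneg fun _ _ => abs_nonneg _, ?_⟩
  intro Z hZ x hx
  have hZ1 : (1 : ℝ) ≤ Z := by exact_mod_cast hZ
  rw [MvPolynomial.eval_eq']
  push_cast
  refine (Finset.abs_sum_le_sum_abs _ _).trans ?_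
  rw [Finset.sum_mul]
  refine Finset.sum_le_sum fun e he => ?_
  rw [abs_mul]
  apply mul_le_mul_of_nonneg_left _ (abs_nonneg _)
  rw [Finset.abs_prod]
  have h1 : ∀ i : Fin n, |((x i : ℤ) : ℝ) ^ e i| ≤ (Z : ℝ) ^ e i := by
    intro i
    rw [abs_pow]
    apply pow_le_pow_left₀ (abs_nonneg _)
    have h2 : (0 : ℝ) < x i := by exact_mod_cast (hx i).1
    rw [abs_of_pos h2]
    exact_mod_cast (hx i).2
  refine (Finset.prod_le_prod (fun i _ => abs_nonneg _) (fun i _ => h1 i)).trans ?_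
  rw [Finset.prod_pow_eq_pow_sum]
  apply pow_le_pow_right₀ hZ1
  have h2 := MvPolynomial.le_totalDegree he
  rw [Finsupp.sum_fintype _ _ (fun _ => rfl)] at h2
  exact h2

/-- **Least primes in the residue classes of the values of squarefree weighted homogeneous polynomials** -/
theorem least_main {ι : Type} [Fintype ι] (n : ℕ) (F : ι → MvPolynomial (Fin n) ℤ)
    (w : Fin n → ℤ) (D : ι → ℤ) (hD : ∀ j, D j ≠ 0) (hw : ∀ j, ∀ e ∈ (F j).support, ∑ i, w i * (e i : ℤ) = D j)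
    (hF : ∀ j, Squarefree (MvPolynomial.map (algebraMap ℤ ℚ) (F j)))
    (hne : ∀ i j, i ≠ j → ∀ a b : ℤ, a ≠ 0 → MvPolynomial.C a * F i ≠ MvPolynomial.C b * F j)
    (ε : ℝ) (hε : 0 < ε) :
    ∃ c : ℝ, 0 < c ∧ ∃ q₀ : ℕ, ∀ q : ℕ, q₀ ≤ q → (∀ ℓ : ℕ, ℓ.Prime → ℓ ∣ q → (q : ℝ) ^ ε < ℓ) →
      ∃ x : Fin n → ℤ, (∀ i, 0 < x i ∧ (x i : ℝ) ≤ (q : ℝ) ^ ε) ∧ ∀ j,
        IsCoprime (MvPolynomial.eval x (F j)) (q : ℤ) ∧
        ∀ P : ℕ, P.Prime → (q : ℤ) ∣ (P : ℤ) - MvPolynomial.eval x (F j) → c * (q * ff q) < P := by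
  classical
  have hF0 : ∀ j, F j ≠ 0 := by
    intro j h
    have := (hF j).ne_zero
    rw [h, map_zero] at this
    exact this rfl
  have hcz : ∀ j, MvPolynomial.constantCoeff (F j) = 0 := fun j => const_zero (F j) w (D j) (hD j) (hw j)
  have hFc : ∀ j, ∀ c : ℤ, F j ≠ MvPolynomial.C c := by
    intro j c hc
    have h1 := hcz j
    rw [hc, MvPolynomial.constantCoeff_C] at h1
    apply hF0 j
    rw [hc, h1, map_zero]
  obtain ⟨K, hK, B₀, hfam⟩ := family_consts n F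
    (fun j => sq_U (F j) (hF j) (hFc j) w (D j) (hD j) (hw j))
    (fun i j hij => forms_P (F i) (F j) (hF i) (hF j) (hF0 i) (hF0 j) (hne i j hij) w (D i) (D j)
      (hD i) (hD j) (hw i) (hw j))
  obtain ⟨w', hw'⟩ := avoid n F (fun _ => 0) (fun j => by rw [map_zero]; exact hF0 j)
  obtain ⟨p', hp'1, hp'2⟩ := Nat.exists_infinite_primes
    (B₀ + ∑ j : ι, (MvPolynomial.eval w' (F j)).natAbs + 1)
  obtain ⟨c₁, hc₁, Z₀, hgen⟩ := gen5 (ι := ι) n p' (fun _ => {0}) K (1 / 2) hK (by norm_num) le_rfl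
  obtain ⟨ε₁, hε₁⟩ : ∃ ε₁ : ℝ, ε₁ = min ε 1 := ⟨_, rfl⟩
  have hε₁0 : 0 < ε₁ := by rw [hε₁]; exact lt_min hε one_pos
  have hε₁1 : ε₁ ≤ 1 := by rw [hε₁]; exact min_le_right _ _
  have hε₁ε : ε₁ ≤ ε := by rw [hε₁]; exact min_le_left _ _
  obtain ⟨T, hT⟩ : ∃ T : ℕ, T = ∑ j : ι, (F j).totalDegree := ⟨_, rfl⟩
  have hTj : ∀ j, (F j).totalDegree ≤ T := by
    intro j
    rw [hT]
    exact Finset.single_le_sum (f := fun j : ι => (F j).totalDegree) (fun _ _ => Nat.zero_le _) (mem_univ j)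
  obtain ⟨θ, hθ⟩ : ∃ θ : ℝ, θ = ε₁ / (2 * (T + 1)) := ⟨_, rfl⟩
  have hT0 : (0 : ℝ) ≤ T := Nat.cast_nonneg T
  have hθ0 : 0 < θ := by rw [hθ]; positivity
  have hθ1 : θ * (T + 1) = ε₁ / 2 := by rw [hθ]; field_simp
  have hθT : θ * T ≤ ε₁ / 2 := by nlinarith
  have hθe : θ ≤ ε₁ / 2 := by nlinarith
  have hθ2 : θ ≤ 1 := by linarith
  choose Aj hAj0 hAj using fun j => eval_bound (F j)
  obtain ⟨A, hA⟩ : ∃ A : ℝ, A = ∑ j : ι, Aj j := ⟨_, rfl⟩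
  have hA0 : 0 ≤ A := by rw [hA]; exact Finset.sum_nonneg fun j _ => hAj0 j
  have hAle : ∀ j, Aj j ≤ A := by
    intro j
    rw [hA]
    exact Finset.single_le_sum (f := Aj) (fun j _ => hAj0 j) (mem_univ j)
  obtain ⟨X₁, hX₁⟩ := ff_floor θ hθ0 hθ2
  obtain ⟨X₂, hX₂⟩ := Pool.Agent.Y837.SV.ff_large (2 / (c₁ * (θ / 16)))
  obtain ⟨c, hc⟩ : ∃ c : ℝ, c = c₁ * (θ / 16) / 2 := ⟨_, rfl⟩
  have hc0 : 0 < c := by rw [hc]; positivity
  have ev1 : ∀ᶠ X : ℝ in Filter.atTop, max Z₀ ((p' : ℝ) ^ (10 : ℕ)) + 1 ≤ X ^ θ :=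
    (tendsto_rpow_atTop hθ0).eventually_ge_atTop _
  have ev2 : ∀ᶠ X : ℝ in Filter.atTop, 2 * A + 1 ≤ X ^ (ε₁ / 2) :=
    (tendsto_rpow_atTop (by positivity)).eventually_ge_atTop _
  obtain ⟨X₃, hX₃⟩ := Filter.eventually_atTop.1 (ev1.and ev2)
  refine ⟨c, hc0, ⌈max (max X₁ X₂) (max X₃ 5)⌉₊, fun q hq hℓ => ?_⟩
  have hq' : max (max X₁ X₂) (max X₃ 5) ≤ (q : ℝ) := (Nat.le_ceil _).trans (by exact_mod_cast hq)
  have hqa : X₁ ≤ (q : ℝ) := ((le_max_left _ _).trans (le_max_left _ _)).trans hq'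
  have hqb : X₂ ≤ (q : ℝ) := ((le_max_right _ _).trans (le_max_left _ _)).trans hq'
  have hqc : X₃ ≤ (q : ℝ) := ((le_max_left _ _).trans (le_max_right _ _)).trans hq'
  have hq5 : (5 : ℝ) ≤ q := ((le_max_right _ _).trans (le_max_right _ _)).trans hq'
  have hq1 : (1 : ℝ) ≤ q := by linarith
  have hq0 : (0 : ℝ) < q := by linarith
  obtain ⟨k1, k2⟩ := hX₃ q hqc
  have k3 := hX₁ q hqa
  have k4 := hX₂ q hqb
  obtain ⟨Z, hZ⟩ : ∃ Z : ℕ, Z = ⌊(q : ℝ) ^ θ⌋₊ := ⟨_, rfl⟩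
  rw [← hZ] at k3
  have hZle : (Z : ℝ) ≤ (q : ℝ) ^ θ := by rw [hZ]; exact Nat.floor_le (by positivity)
  have hZge : max Z₀ ((p' : ℝ) ^ (10 : ℕ)) ≤ (Z : ℝ) := by
    have : (q : ℝ) ^ θ < (Z : ℝ) + 1 := by rw [hZ]; exact Nat.lt_floor_add_one _
    linarith
  have hZ₀ : Z₀ ≤ (Z : ℝ) := (le_max_left _ _).trans hZge
  have hp'1' : (1 : ℝ) ≤ p' := by exact_mod_cast hp'2.one_lt.le
  have hZp : ((p' : ℝ) ^ (10 : ℕ)) ≤ (Z : ℝ) := (le_max_right _ _).trans hZge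
  have hZ1r : (1 : ℝ) ≤ Z := le_trans (one_le_pow₀ hp'1') hZp
  have hZ1 : 1 ≤ Z := by exact_mod_cast hZ1r
  have hp'Z : (p' : ℝ) ≤ (Z : ℝ) ^ (1 / 10 : ℝ) := by
    have h1 : ((p' : ℝ) ^ (10 : ℕ)) ^ (1 / 10 : ℝ) ≤ (Z : ℝ) ^ (1 / 10 : ℝ) :=
      Real.rpow_le_rpow (by positivity) hZp (by norm_num)
    have h2 : ((p' : ℝ) ^ (10 : ℕ)) ^ (1 / 10 : ℝ) = p' := by
      rw [← Real.rpow_natCast, ← Real.rpow_mul (by linarith)]
      norm_num
    rwa [h2] at h1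
  -- the size of `Z ^ (1/10)`
  have hZt : (Z : ℝ) ^ (1 / 10 : ℝ) ≤ (q : ℝ) ^ (ε₁ / 2) := by
    have h1 : (Z : ℝ) ^ (1 / 10 : ℝ) ≤ (Z : ℝ) ^ (1 : ℝ) :=
      Real.rpow_le_rpow_of_exponent_le hZ1r (by norm_num)
    rw [Real.rpow_one] at h1
    refine h1.trans (hZle.trans ?_)
    exact Real.rpow_le_rpow_of_exponent_le hq1 hθe
  have hqε : (q : ℝ) ^ ε₁ = (q : ℝ) ^ (ε₁ / 2) * (q : ℝ) ^ (ε₁ / 2) := by
    rw [← Real.rpow_add hq0]
    ring_nf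
  have hqh1 : 1 ≤ (q : ℝ) ^ (ε₁ / 2) := by linarith
  have hqε2 : (q : ℝ) ^ (ε₁ / 2) ≤ (q : ℝ) ^ ε₁ := by rw [hqε]; nlinarith
  have hqεε : (q : ℝ) ^ ε₁ ≤ (q : ℝ) ^ ε := Real.rpow_le_rpow_of_exponent_le hq1 hε₁ε
  have hqε1 : (q : ℝ) ^ ε₁ ≤ q := by
    calc (q : ℝ) ^ ε₁ ≤ (q : ℝ) ^ (1 : ℝ) := Real.rpow_le_rpow_of_exponent_le hq1 hε₁1
      _ = q := Real.rpow_one _
  -- the inverse of `q`
  obtain ⟨N, hN⟩ : ∃ N : ℕ, N = primorial ⌊(Z : ℝ) ^ (1 / 10 : ℝ)⌋₊ := ⟨_, rfl⟩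
  have hNdvd : ∀ p : ℕ, p.Prime → (p : ℝ) ≤ (Z : ℝ) ^ (1 / 10 : ℝ) → (p : ℤ) ∣ (N : ℤ) := by
    intro p hp hpy
    have hpy' : p ≤ ⌊(Z : ℝ) ^ (1 / 10 : ℝ)⌋₊ := Nat.le_floor hpy
    rw [hN, primorial]
    have : p ∈ (Finset.range (⌊(Z : ℝ) ^ (1 / 10 : ℝ)⌋₊ + 1)).filter Nat.Prime := by
      rw [Finset.mem_filter, Finset.mem_range]
      exact ⟨by omega, hp⟩
    exact_mod_cast Finset.dvd_prod_of_mem _ this
  have hcop : Nat.Coprime q N := by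
    by_contra h
    obtain ⟨ℓ, hℓ1, hℓ2, hℓ3⟩ := Nat.Prime.not_coprime_iff_dvd.1 h
    have h1 := hℓ ℓ hℓ1 hℓ2
    rw [hN, primorial, Prime.dvd_finsetProd_iff hℓ1.prime] at hℓ3
    obtain ⟨p, hp, hℓp⟩ := hℓ3
    rw [Finset.mem_filter, Finset.mem_range] at hp
    have h4 : ℓ = p := (Nat.prime_dvd_prime_iff_eq hℓ1 hp.2).1 hℓp
    have h5 : (ℓ : ℝ) ≤ (Z : ℝ) ^ (1 / 10 : ℝ) := by
      have : ℓ ≤ ⌊(Z : ℝ) ^ (1 / 10 : ℝ)⌋₊ := by omega
      calc (ℓ : ℝ) ≤ (⌊(Z : ℝ) ^ (1 / 10 : ℝ)⌋₊ : ℝ) := by exact_mod_cast this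
        _ ≤ _ := Nat.floor_le (by positivity)
    linarith
  obtain ⟨a, b, hab⟩ := Nat.isCoprime_iff_coprime.2 hcop
  have hpa : ∀ p : ℕ, p.Prime → (p : ℝ) ≤ (Z : ℝ) ^ (1 / 10 : ℝ) → (p : ℤ) ∣ a * q - 1 := by
    intro p hp hpZ
    have h1 : a * q - 1 = -(b * N) := by linarith
    rw [h1]
    exact (dvd_neg).2 ((hNdvd p hp hpZ).mul_left b)
  have hpa' : ∀ p : ℕ, p.Prime → (p : ℝ) ≤ (Z : ℝ) ^ (1 / 10 : ℝ) → ((a : ℤ) : ZMod p) * ((q : ℕ) : ZMod p) = 1 := by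
    intro p hp hpZ
    have h1 := (ZMod.intCast_zmod_eq_zero_iff_dvd _ p).2 (hpa p hp hpZ)
    push_cast at h1
    exact sub_eq_zero.1 h1
  have hpna : ∀ p : ℕ, p.Prime → (p : ℝ) ≤ (Z : ℝ) ^ (1 / 10 : ℝ) → ¬ (p : ℤ) ∣ a := by
    intro p hp hpZ h
    have h1 := hpa p hp hpZ
    have h2 : (p : ℤ) ∣ 1 := by
      have h3 : (p : ℤ) ∣ a * q := h.mul_right _
      have h4 := dvd_sub h3 h1
      have e : a * (q : ℤ) - (a * q - 1) = 1 := by ring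
      rwa [e] at h4
    have h3 := Int.natAbs_dvd_natAbs.2 h2
    simp at h3
    exact hp.one_lt.ne' h3
  have hdvda : ∀ p : ℕ, p.Prime → (p : ℝ) ≤ (Z : ℝ) ^ (1 / 10 : ℝ) → ∀ y : ℤ, (p : ℤ) ∣ a * y → (p : ℤ) ∣ y := by
    intro p hp hpZ y hy
    rcases (Nat.prime_iff_prime_int.1 hp).dvd_or_dvd hy with h | h
    · exact absurd h (hpna p hp hpZ)
    · exact h
  have hcast : ∀ (p : ℕ) (r : ZMod p), (∀ v ∈ ({0} : Finset ℤ), r ≠ (v : ZMod p)) → r ≠ 0 := by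
    intro p r hr h
    refine hr 0 (mem_singleton_self _) ?_
    rw [h]
    simp
  have hiff : ∀ p : ℕ, p.Prime → (p : ℝ) ≤ (Z : ℝ) ^ (1 / 10 : ℝ) → ∀ y r : ZMod p,
      (((a : ℤ) : ZMod p) * y = r ↔ y = ((q : ℕ) : ZMod p) * r) := by
    intro p hp hpZ y r
    have h1 := hpa' p hp hpZ
    constructor
    · rintro rfl
      rw [← mul_assoc, mul_comm ((q : ℕ) : ZMod p), h1, one_mul]
    · rintro rfl
      rw [← mul_assoc, h1, one_mul]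
  have hq0p : ∀ p : ℕ, p.Prime → (p : ℝ) ≤ (Z : ℝ) ^ (1 / 10 : ℝ) → ∀ r : ZMod p, r ≠ 0 →
      ((q : ℕ) : ZMod p) * r ≠ 0 := by
    intro p hp hpZ r hr h
    have : Fact p.Prime := ⟨hp⟩
    rcases mul_eq_zero.1 h with h1 | h1
    · have h2 := hpa' p hp hpZ
      rw [h1, mul_zero] at h2
      exact zero_ne_one h2
    · exact hr h1
  have hB₀p : ∀ p : ℕ, p' < p → B₀ < p := by intro p hp; omega
  obtain ⟨x, hx1, hx2, hx3⟩ := hgen Z hZ₀ (fun j p y => ((a : ℤ) : ZMod p) * MvPolynomial.aeval y (F j))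
    (fun j x => a * MvPolynomial.eval x (F j))
    (by
      intro j p x
      have h1 : (Int.castRingHom (ZMod p)) (MvPolynomial.eval x (F j)) =
          MvPolynomial.aeval (red n p x) (F j) := by
        rw [MvPolynomial.aeval_def, MvPolynomial.eval, MvPolynomial.coe_eval₂Hom,
          MvPolynomial.hom_eval₂]
        congr 1
      rw [← h1]
      push_cast
      rfl)
    (fun _ => 0) (fun p => if p = p' then 0 else w')
    (by
      intro p hp hBp hpZ j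
      rw [MvPolynomial.eval_zero, hcz, mul_zero]
      exact dvd_zero _)
    (by
      intro p hp hBp hpZ j h
      have h1 := hdvda p hp hpZ _ h
      rw [if_neg (by omega)] at h1
      have h3 := Int.natAbs_dvd_natAbs.2 h1
      rw [Int.natAbs_natCast] at h3
      have h4 := Nat.le_of_dvd (Int.natAbs_pos.2 (hw' j)) h3
      have h5 := Finset.single_le_sum (f := fun j : ι => (MvPolynomial.eval w' (F j)).natAbs)
        (fun _ _ => Nat.zero_le _) (mem_univ j)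
      omega)
    (by
      intro j r hr
      rw [mem_singleton] at hr
      refine ⟨p', hp'2, le_rfl, ?_⟩
      rw [if_pos rfl, hr, sub_zero, MvPolynomial.eval_zero, hcz, mul_zero]
      exact dvd_zero _)
    (by
      intro p hp hBp hpZ j r hr
      have h1 := (hfam p hp (hB₀p p hBp)).1 j _ (hq0p p hp hpZ r (hcast p r hr))
      have h2 : Nat.card {x : Fin n → ZMod p // MvPolynomial.aeval x (F j) = ((q : ℕ) : ZMod p) * r} =
          Nat.card {x : Fin n → ZMod p // ((a : ℤ) : ZMod p) * MvPolynomial.aeval x (F j) = r} :=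
        Nat.card_congr (Equiv.subtypeEquivRight fun x => (hiff p hp hpZ _ r).symm)
      rw [h2] at h1
      exact h1)
    (by
      intro p hp hBp hpZ i j hij r s hr hs
      have h1 := (hfam p hp (hB₀p p hBp)).2 i j hij _ _ (hq0p p hp hpZ r (hcast p r hr))
        (hq0p p hp hpZ s (hcast p s hs))
      have h2 : Nat.card {x : Fin n → ZMod p // MvPolynomial.aeval x (F i) = ((q : ℕ) : ZMod p) * r ∧
          MvPolynomial.aeval x (F j) = ((q : ℕ) : ZMod p) * s} =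
          Nat.card {x : Fin n → ZMod p // ((a : ℤ) : ZMod p) * MvPolynomial.aeval x (F i) = r ∧
            ((a : ℤ) : ZMod p) * MvPolynomial.aeval x (F j) = s} :=
        Nat.card_congr (Equiv.subtypeEquivRight fun x =>
          and_congr (hiff p hp hpZ _ r).symm (hiff p hp hpZ _ s).symm)
      rw [h2] at h1
      exact h1)
    (fun _ => 0)
  have hxb : ∀ i, 0 < x i ∧ x i ≤ Z := by
    intro i
    have := hx1 i
    rw [zero_add] at this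
    exact this
  have hxq : ∀ i, (x i : ℝ) ≤ (q : ℝ) ^ ε := by
    intro i
    have h1 : (x i : ℝ) ≤ (Z : ℝ) := by exact_mod_cast (hxb i).2
    refine h1.trans (hZle.trans ?_)
    exact Real.rpow_le_rpow_of_exponent_le hq1 (by linarith)
  have hFb : ∀ j, |((MvPolynomial.eval x (F j) : ℤ) : ℝ)| < (q : ℝ) ^ ε₁ / 2 := by
    intro j
    have h1 := hAj j Z hZ1 x hxb
    have h2 : (Z : ℝ) ^ (F j).totalDegree ≤ (q : ℝ) ^ (ε₁ / 2) := by
      calc (Z : ℝ) ^ (F j).totalDegree ≤ (Z : ℝ) ^ T := pow_le_pow_right₀ hZ1r (hTj j)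
        _ ≤ ((q : ℝ) ^ θ) ^ T := pow_le_pow_left₀ (by positivity) hZle T
        _ = (q : ℝ) ^ (θ * T) := by rw [Real.rpow_mul hq0.le, Real.rpow_natCast]
        _ ≤ (q : ℝ) ^ (ε₁ / 2) := Real.rpow_le_rpow_of_exponent_le hq1 hθT
    have h3 : Aj j * (Z : ℝ) ^ (F j).totalDegree ≤ A * (q : ℝ) ^ (ε₁ / 2) :=
      mul_le_mul (hAle j) h2 (by positivity) hA0
    have h4 : A * (q : ℝ) ^ (ε₁ / 2) < (q : ℝ) ^ ε₁ / 2 := by
      rw [hqε]
      nlinarith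
    linarith
  refine ⟨x, fun i => ⟨(hxb i).1, hxq i⟩, fun j => ⟨?_, ?_⟩⟩
  · rw [Int.isCoprime_iff_gcd_eq_one, Int.gcd, Int.natAbs_natCast]
    by_contra h
    obtain ⟨ℓ, hℓ1, hℓ2, hℓ3⟩ := Nat.Prime.not_coprime_iff_dvd.1 h
    have h1 := hℓ ℓ hℓ1 hℓ3
    have hne0 : MvPolynomial.eval x (F j) ≠ 0 := by
      intro h0
      apply (hx2 j).1
      show a * MvPolynomial.eval x (F j) = 0
      rw [h0, mul_zero]
    have h2 := Nat.le_of_dvd (Int.natAbs_pos.2 hne0) hℓ2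
    have h3 : (ℓ : ℝ) ≤ |((MvPolynomial.eval x (F j) : ℤ) : ℝ)| := by
      have h4 : (ℓ : ℝ) ≤ ((MvPolynomial.eval x (F j)).natAbs : ℝ) := by exact_mod_cast h2
      rwa [Nat.cast_natAbs, Int.cast_abs] at h4
    have h5 := hFb j
    have h6 : 0 < (q : ℝ) ^ ε₁ := by positivity
    linarith
  · intro P hP hPd
    by_contra hle
    push Not at hle
    obtain ⟨m, hm⟩ := hPd
    have hFj := hFb j
    have hff : 1 ≤ c * ff q := by
      rw [hc]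
      have h1 : 2 / (c₁ * (θ / 16)) ≤ ff q := k4
      rw [div_le_iff₀ (by positivity)] at h1
      linarith
    have hmb : |(m : ℝ)| ≤ c₁ * ff Z := by
      have h1 : (q : ℝ) * m = P - MvPolynomial.eval x (F j) := by exact_mod_cast hm.symm
      have h2 : (q : ℝ) * |(m : ℝ)| ≤ P + |((MvPolynomial.eval x (F j) : ℤ) : ℝ)| := by
        have h3 : (q : ℝ) * |(m : ℝ)| = |(q : ℝ) * m| := by rw [abs_mul, abs_of_pos hq0]
        rw [h3, h1]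
        refine (abs_sub _ _).trans ?_
        rw [Nat.abs_cast]
      have h3 : (q : ℝ) * |(m : ℝ)| ≤ q * (2 * (c * ff q)) := by nlinarith
      have h4 : |(m : ℝ)| ≤ 2 * (c * ff q) := le_of_mul_le_mul_left h3 hq0
      have h5 : 2 * (c * ff q) = c₁ * (θ / 16 * ff q) := by rw [hc]; ring
      rw [h5] at h4
      exact h4.trans (mul_le_mul_of_nonneg_left k3 hc₁.le)
    obtain ⟨p, hp, hpZ, hpd⟩ := hx3 j m hmb
    have hpP : (p : ℤ) ∣ (P : ℤ) := by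
      have h1 : (P : ℤ) = q * (a * MvPolynomial.eval x (F j) + m) - (a * q - 1) * MvPolynomial.eval x (F j) := by
        have h2 : (P : ℤ) = MvPolynomial.eval x (F j) + q * m := by linarith
        rw [h2]
        ring
      rw [h1]
      exact dvd_sub (hpd.mul_left _) ((hpa p hp hpZ).mul_right _)
    have hpP' : p = P := (Nat.prime_dvd_prime_iff_eq hp hP).1 (by exact_mod_cast hpP)
    have hPq : (P : ℝ) < q / 2 := by
      rw [← hpP']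
      have h1 : (p : ℝ) ≤ (q : ℝ) ^ (ε₁ / 2) := hpZ.trans hZt
      have h2 : (q : ℝ) ^ (ε₁ / 2) ≤ (q : ℝ) ^ (1 / 2 : ℝ) :=
        Real.rpow_le_rpow_of_exponent_le hq1 (by linarith)
      have h3 : (q : ℝ) ^ (1 / 2 : ℝ) * (q : ℝ) ^ (1 / 2 : ℝ) = q := by
        rw [← Real.rpow_add hq0]; norm_num
      have h4 : 0 ≤ (q : ℝ) ^ (1 / 2 : ℝ) := by positivity
      nlinarith
    have hm0 : m = 0 := by
      have h1 : (q : ℝ) * m = P - MvPolynomial.eval x (F j) := by exact_mod_cast hm.symm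
      have h2 : (q : ℝ) * |(m : ℝ)| < q * 1 := by
        have h3 : (q : ℝ) * |(m : ℝ)| = |(q : ℝ) * m| := by rw [abs_mul, abs_of_pos hq0]
        rw [h3, h1]
        have h4 := abs_sub (P : ℝ) (MvPolynomial.eval x (F j))
        rw [Nat.abs_cast] at h4
        linarith
      have h3 : |(m : ℝ)| < 1 := lt_of_mul_lt_mul_left h2 hq0.le
      have h4 : |m| < 1 := by exact_mod_cast h3
      exact Int.abs_lt_one_iff.1 h4
    rw [hm0, mul_zero] at hm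
    have hPF : (P : ℤ) = MvPolynomial.eval x (F j) := by linarith
    obtain ⟨-, ⟨p₁, hp₁, hp₁B, hp₁Z, hp₁d⟩, hx2r⟩ := hx2 j
    obtain ⟨p₂, hp₂, hp₂B, hp₂d⟩ := hx2r 0 (mem_singleton_self _)
    rw [sub_zero] at hp₂d
    have hp₂Z : (p₂ : ℝ) ≤ (Z : ℝ) ^ (1 / 10 : ℝ) := by
      have : (p₂ : ℝ) ≤ p' := by exact_mod_cast hp₂B
      linarith
    have h1 := hdvda p₁ hp₁ hp₁Z _ hp₁d
    have h2 := hdvda p₂ hp₂ hp₂Z _ hp₂d
    rw [← hPF] at h1 h2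
    have h3 : p₁ = P := (Nat.prime_dvd_prime_iff_eq hp₁ hP).1 (by exact_mod_cast h1)
    have h4 : p₂ = P := (Nat.prime_dvd_prime_iff_eq hp₂ hP).1 (by exact_mod_cast h2)
    omega

end Pool.Agent.Y837.SW
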