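import Pool.Agent.Y837.SW.Pair

set_option autoImplicit false
set_option linter.unusedVariables false

/-! # The criterion with constants depending on the polynomials, and weighted homogeneous polynomials
(project SW, helper837) -/

namespace Pool.Agent.Y837.SW

open Finset
open Pool.Agent.H256R2.SC (ff)
open Pool.Agent.Y837.SV (rp rp_eval rp_int rp_degree scale_aeval crit3)

open Classical in
/-- the criterion, with constants depending on the polynomials -/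
theorem crit4 {ι : Type} [Fintype ι] (d : ℕ) (F : ι → MvPolynomial (Fin d) ℤ)
    (hF : ∀ j, ∀ c : ℤ, F j ≠ MvPolynomial.C c)
    (Ex : ι → Finset ℤ) (hEx : ∀ j, ∀ r ∈ Ex j, ∀ B : ℕ, ∃ p : ℕ, p.Prime ∧ B < p ∧ ∃ x : Fin d → ℤ,
      (p : ℤ) ∣ MvPolynomial.eval x (F j) - r)
    (hU : ∀ j, ∃ C : ℝ, 0 ≤ C ∧ ∃ B₀ : ℕ, ∀ p : ℕ, ∀ [Fact p.Prime], B₀ < p → ∀ r : ZMod p,
      (∀ v ∈ Ex j, r ≠ (v : ZMod p)) →
      |(p : ℝ) * ((univ.filter (fun x : Fin d → ZMod p => MvPolynomial.aeval x (F j) = r)).card : ℝ) -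
        (p : ℝ) ^ d| * Real.sqrt p ≤ C * (p : ℝ) ^ d)
    (hP : ∀ i j, i ≠ j → ∃ C : ℝ, 0 ≤ C ∧ ∃ B₀ : ℕ, ∀ p : ℕ, ∀ [Fact p.Prime], B₀ < p → ∀ r s : ZMod p,
      (∀ v ∈ Ex i, r ≠ (v : ZMod p)) → (∀ v ∈ Ex j, s ≠ (v : ZMod p)) →
      (p : ℝ) ^ 2 * ((univ.filter (fun x : Fin d → ZMod p => MvPolynomial.aeval x (F i) = r ∧
        MvPolynomial.aeval x (F j) = s)).card : ℝ) ≤ C * (p : ℝ) ^ d) :
    ∃ c : ℝ, 0 < c ∧ ∃ Z₀ : ℝ, ∀ Z : ℕ, Z₀ ≤ Z → ∀ M : Fin d → ℤ, ∃ x : Fin d → ℤ,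
      (∀ i, M i < x i ∧ x i ≤ M i + Z) ∧ ∀ j, ∀ n : ℤ, |(n : ℝ) - MvPolynomial.eval x (F j)| ≤ c * ff Z →
        ∃ p : ℕ, p.Prime ∧ (p : ℝ) ≤ (Z : ℝ) ^ (1 / 10 : ℝ) ∧ (p : ℤ) ∣ n := by
  choose C₁ hC₁ B₁ hB₁ using hU
  have hP' : ∀ i j, ∃ C : ℝ, 0 ≤ C ∧ ∃ B₀ : ℕ, i ≠ j → ∀ p : ℕ, ∀ [Fact p.Prime], B₀ < p → ∀ r s : ZMod p,
      (∀ v ∈ Ex i, r ≠ (v : ZMod p)) → (∀ v ∈ Ex j, s ≠ (v : ZMod p)) →
      (p : ℝ) ^ 2 * ((univ.filter (fun x : Fin d → ZMod p => MvPolynomial.aeval x (F i) = r ∧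
        MvPolynomial.aeval x (F j) = s)).card : ℝ) ≤ C * (p : ℝ) ^ d := by
    intro i j
    by_cases h : i = j
    · exact ⟨0, le_rfl, 0, fun h' => absurd h h'⟩
    · obtain ⟨C, hC, B, hB⟩ := hP i j h
      exact ⟨C, hC, B, fun _ => hB⟩
  choose C₂ hC₂ B₂ hB₂ using hP'
  obtain ⟨K, hK⟩ : ∃ K : ℝ, K = ∑ j : ι, C₁ j + ∑ i : ι, ∑ j : ι, C₂ i j := ⟨_, rfl⟩
  obtain ⟨B₀, hB₀⟩ : ∃ B₀ : ℕ, B₀ = ∑ j : ι, B₁ j + ∑ i : ι, ∑ j : ι, B₂ i j := ⟨_, rfl⟩
  have hs1 : 0 ≤ ∑ j : ι, C₁ j := Finset.sum_nonneg fun j _ => hC₁ j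
  have hs2 : 0 ≤ ∑ i : ι, ∑ j : ι, C₂ i j :=
    Finset.sum_nonneg fun i _ => Finset.sum_nonneg fun j _ => hC₂ i j
  have hK1 : ∀ j, C₁ j ≤ K := by
    intro j
    have := Finset.single_le_sum (f := C₁) (fun j _ => hC₁ j) (mem_univ j)
    rw [hK]
    linarith
  have hK2 : ∀ i j, C₂ i j ≤ K := by
    intro i j
    have a4 := Finset.single_le_sum (f := fun j : ι => C₂ i j) (fun j _ => hC₂ i j) (mem_univ j)
    have a5 := Finset.single_le_sum (f := fun i : ι => ∑ j : ι, C₂ i j)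
      (fun i _ => Finset.sum_nonneg fun j _ => hC₂ i j) (mem_univ i)
    rw [hK]
    linarith
  have hb1 : ∀ j, B₁ j ≤ B₀ := by
    intro j
    have := Finset.single_le_sum (f := B₁) (fun j _ => Nat.zero_le _) (mem_univ j)
    rw [hB₀]
    omega
  have hb2 : ∀ i j, B₂ i j ≤ B₀ := by
    intro i j
    have a4 := Finset.single_le_sum (f := fun j : ι => B₂ i j) (fun j _ => Nat.zero_le _) (mem_univ j)
    have a5 := Finset.single_le_sum (f := fun i : ι => ∑ j : ι, B₂ i j)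
      (fun i _ => Nat.zero_le _) (mem_univ i)
    rw [hB₀]
    omega
  refine crit3 d F hF Ex hEx B₀ K (1 / 2) (by norm_num) ?_ ?_
  · intro p hp hBp j r hr
    have : Fact p.Prime := ⟨hp⟩
    have hp0 : (0 : ℝ) < p := by exact_mod_cast hp.pos
    have hs0 : 0 < Real.sqrt p := Real.sqrt_pos.2 hp0
    have h1 := hB₁ j p (lt_of_le_of_lt (hb1 j) hBp) r hr
    rw [Nat.card_eq_fintype_card, Fintype.card_subtype]
    have h2 : |(p : ℝ) * ((univ.filter (fun x : Fin d → ZMod p => MvPolynomial.aeval x (F j) = r)).card : ℝ) -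
        (p : ℝ) ^ d| ≤ C₁ j * (p : ℝ) ^ d / Real.sqrt p := by
      rw [le_div_iff₀ hs0]
      exact h1
    refine le_trans ?_ (h2.trans ?_)
    · exact le_rfl
    · have h3 : (p : ℝ) ^ (-(1 / 2) : ℝ) = 1 / Real.sqrt p := by
        rw [Real.rpow_neg hp0.le, ← Real.sqrt_eq_rpow, one_div]
      rw [h3, ← mul_div_assoc, mul_one]
      apply div_le_div_of_nonneg_right _ hs0.le
      exact mul_le_mul_of_nonneg_right (hK1 j) (by positivity)
  · intro p hp hBp i j hij r s hr hs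
    have : Fact p.Prime := ⟨hp⟩
    have h1 := hB₂ i j hij p (lt_of_le_of_lt (hb2 i j) hBp) r s hr hs
    rw [Nat.card_eq_fintype_card, Fintype.card_subtype]
    refine le_trans ?_ (h1.trans ?_)
    · exact le_rfl
    · exact mul_le_mul_of_nonneg_right (hK2 i j) (by positivity)

theorem const_zero {n : ℕ} (F : MvPolynomial (Fin n) ℤ) (w : Fin n → ℤ) (D : ℤ) (hD : D ≠ 0)
    (hw : ∀ e ∈ F.support, ∑ i, w i * (e i : ℤ) = D) : MvPolynomial.constantCoeff F = 0 := by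
  rw [MvPolynomial.constantCoeff_eq]
  by_contra h
  have h1 : (0 : Fin n →₀ ℕ) ∈ F.support := MvPolynomial.mem_support_iff.2 h
  have h2 := hw 0 h1
  simp at h2
  exact hD h2.symm

open Classical in
/-- pairs of weighted homogeneous polynomials -/
theorem forms_P {n : ℕ} (F G : MvPolynomial (Fin n) ℤ)
    (hF : Squarefree (MvPolynomial.map (algebraMap ℤ ℚ) F))
    (hG : Squarefree (MvPolynomial.map (algebraMap ℤ ℚ) G)) (hF0 : F ≠ 0) (hG0 : G ≠ 0)
    (hne : ∀ a b : ℤ, a ≠ 0 → MvPolynomial.C a * F ≠ MvPolynomial.C b * G)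
    (w : Fin n → ℤ) (D E : ℤ) (hD : D ≠ 0) (hE : E ≠ 0)
    (hwF : ∀ e ∈ F.support, ∑ i, w i * (e i : ℤ) = D) (hwG : ∀ e ∈ G.support, ∑ i, w i * (e i : ℤ) = E) :
    ∃ C : ℝ, 0 ≤ C ∧ ∃ B₀ : ℕ, ∀ p : ℕ, ∀ [Fact p.Prime], B₀ < p → ∀ r s : ZMod p, r ≠ 0 → s ≠ 0 →
      (p : ℝ) ^ 2 * ((univ.filter (fun x : Fin n → ZMod p => MvPolynomial.aeval x F = r ∧
        MvPolynomial.aeval x G = s)).card : ℝ) ≤ C * (p : ℝ) ^ n := by
  obtain ⟨a, ha⟩ : ∃ a, a = E.natAbs := ⟨_, rfl⟩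
  obtain ⟨b, hb⟩ : ∃ b, b = D.natAbs := ⟨_, rfl⟩
  have ha0 : 0 < a := by rw [ha]; exact Int.natAbs_pos.2 hE
  have hb0 : 0 < b := by rw [hb]; exact Int.natAbs_pos.2 hD
  obtain ⟨x, y, hxy⟩ := exists_points F G hF hG hF0 hG0 hne a b ha0 hb0
  obtain ⟨Δ, hΔ⟩ : ∃ Δ : ℤ, Δ = MvPolynomial.eval x F ^ a * MvPolynomial.eval y G ^ b -
      MvPolynomial.eval y F ^ a * MvPolynomial.eval x G ^ b := ⟨_, rfl⟩
  have hΔ0 : Δ ≠ 0 := by rw [hΔ]; exact sub_ne_zero.2 hxy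
  refine ⟨2 * (D.natAbs * (a * F.totalDegree + b * G.totalDegree) : ℕ), by positivity, Δ.natAbs, ?_⟩
  intro p _ hp r s hr hs
  have hΔp : ((Δ : ℤ) : ZMod p) ≠ 0 := by
    intro h
    rw [ZMod.intCast_zmod_eq_zero_iff_dvd] at h
    have h3 := Int.natAbs_dvd_natAbs.2 h
    rw [Int.natAbs_natCast] at h3
    have h4 := Nat.le_of_dvd (Int.natAbs_pos.2 hΔ0) h3
    omega
  have hdF : ((rp p F) ^ a).totalDegree ≤ a * F.totalDegree :=
    (MvPolynomial.totalDegree_pow _ _).trans (Nat.mul_le_mul_left _ (rp_degree F))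
  have hdG : ((rp p G) ^ b).totalDegree ≤ b * G.totalDegree :=
    (MvPolynomial.totalDegree_pow _ _).trans (Nat.mul_le_mul_left _ (rp_degree G))
  by_cases hsgn : D * a = E * b
  · -- weights of the same sign
    refine orbit_count F G w D hD hwF r s hr
      (MvPolynomial.C (s ^ b) * (rp p F) ^ a - MvPolynomial.C (r ^ a) * (rp p G) ^ b) ?_ ?_ ?_
    · refine (MvPolynomial.totalDegree_sub _ _).trans (max_le ?_ ?_)
      · refine (MvPolynomial.totalDegree_mul _ _).trans ?_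
        rw [MvPolynomial.totalDegree_C, zero_add]
        omega
      · refine (MvPolynomial.totalDegree_mul _ _).trans ?_
        rw [MvPolynomial.totalDegree_C, zero_add]
        omega
    · intro h0
      apply hΔp
      have hev : ∀ z : Fin n → ℤ, s ^ b * ((MvPolynomial.eval z F : ℤ) : ZMod p) ^ a =
          r ^ a * ((MvPolynomial.eval z G : ℤ) : ZMod p) ^ b := by
        intro z
        have h1 := congrArg (MvPolynomial.eval (fun i => ((z i : ℤ) : ZMod p))) h0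
        rw [map_sub, map_mul, map_mul, MvPolynomial.eval_C, MvPolynomial.eval_C,
          map_pow (MvPolynomial.eval _) (rp p F), map_pow (MvPolynomial.eval _) (rp p G), rp_eval, rp_eval,
          ← rp_int, ← rp_int, map_zero] at h1
        exact sub_eq_zero.1 h1
      have h1 := hev x
      have h2 := hev y
      have h3 : s ^ b * r ^ a * ((Δ : ℤ) : ZMod p) = 0 := by
        rw [hΔ]
        push_cast
        linear_combination (r ^ a * ((MvPolynomial.eval y G : ℤ) : ZMod p) ^ b) * h1 -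
          (r ^ a * ((MvPolynomial.eval x G : ℤ) : ZMod p) ^ b) * h2
      rcases mul_eq_zero.1 h3 with h4 | h4
      · exact absurd h4 (mul_ne_zero (pow_ne_zero _ hs) (pow_ne_zero _ hr))
      · exact h4
    · intro l hl z hzF hzG
      have e1 : (l ^ D) ^ a = l ^ (D * (a : ℤ)) := by rw [zpow_mul, zpow_natCast]
      have e2 : (l ^ E) ^ b = l ^ (E * (b : ℤ)) := by rw [zpow_mul, zpow_natCast]
      rw [map_sub, map_mul, map_mul, MvPolynomial.eval_C, MvPolynomial.eval_C,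
        map_pow (MvPolynomial.eval _) (rp p F), map_pow (MvPolynomial.eval _) (rp p G), rp_eval, rp_eval,
        scale_aeval F w D hwF z l hl, scale_aeval G w E hwG z l hl, hzF, hzG, mul_pow, mul_pow,
        e1, e2, hsgn]
      ring
  · -- weights of opposite signs
    have hsgn' : D * a + E * b = 0 := by
      rw [ha, hb] at hsgn ⊢
      rcases lt_or_gt_of_ne hD with h1 | h1 <;> rcases lt_or_gt_of_ne hE with h2 | h2
      · exfalso; apply hsgn
        rw [Int.natCast_natAbs, Int.natCast_natAbs, abs_of_neg h1, abs_of_neg h2]; ring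
      · rw [Int.natCast_natAbs, Int.natCast_natAbs, abs_of_neg h1, abs_of_pos h2]; ring
      · rw [Int.natCast_natAbs, Int.natCast_natAbs, abs_of_pos h1, abs_of_neg h2]; ring
      · exfalso; apply hsgn
        rw [Int.natCast_natAbs, Int.natCast_natAbs, abs_of_pos h1, abs_of_pos h2]; ring
    refine orbit_count F G w D hD hwF r s hr
      ((rp p F) ^ a * (rp p G) ^ b - MvPolynomial.C (r ^ a * s ^ b)) ?_ ?_ ?_
    · refine (MvPolynomial.totalDegree_sub _ _).trans (max_le ?_ ?_)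
      · refine (MvPolynomial.totalDegree_mul _ _).trans ?_
        omega
      · rw [MvPolynomial.totalDegree_C]
        exact Nat.zero_le _
    · intro h0
      have h1 := congrArg (MvPolynomial.eval (fun i => (((0 : Fin n → ℤ) i : ℤ) : ZMod p))) h0
      rw [map_sub, map_mul, MvPolynomial.eval_C,
        map_pow (MvPolynomial.eval _) (rp p F), rp_eval, ← rp_int, MvPolynomial.eval_zero,
        const_zero F w D hD hwF, Int.cast_zero, zero_pow ha0.ne', zero_mul, zero_sub, map_zero, neg_eq_zero] at h1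
      exact mul_ne_zero (pow_ne_zero _ hr) (pow_ne_zero _ hs) h1
    · intro l hl z hzF hzG
      have e2 : (l ^ D) ^ a = l ^ (D * (a : ℤ)) := by rw [zpow_mul, zpow_natCast]
      have e3 : (l ^ E) ^ b = l ^ (E * (b : ℤ)) := by rw [zpow_mul, zpow_natCast]
      rw [map_sub, map_mul, MvPolynomial.eval_C,
        map_pow (MvPolynomial.eval _) (rp p F), map_pow (MvPolynomial.eval _) (rp p G), rp_eval, rp_eval,
        scale_aeval F w D hwF z l hl, scale_aeval G w E hwG z l hl, hzF, hzG, mul_pow, mul_pow,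
        e2, e3]
      have e1 : l ^ (D * (a : ℤ)) * l ^ (E * (b : ℤ)) = 1 := by
        rw [← zpow_add₀ hl, hsgn', zpow_zero]
      linear_combination (r ^ a * s ^ b) * e1

/-- **Record neighbourhoods around the values of squarefree weighted homogeneous polynomials** -/
theorem forms_main {ι : Type} [Fintype ι] (n : ℕ) (F : ι → MvPolynomial (Fin n) ℤ)
    (w : Fin n → ℤ) (D : ι → ℤ) (hD : ∀ j, D j ≠ 0) (hw : ∀ j, ∀ e ∈ (F j).support, ∑ i, w i * (e i : ℤ) = D j)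
    (hF : ∀ j, Squarefree (MvPolynomial.map (algebraMap ℤ ℚ) (F j)))
    (hne : ∀ i j, i ≠ j → ∀ a b : ℤ, a ≠ 0 → MvPolynomial.C a * F i ≠ MvPolynomial.C b * F j) :
    ∃ c : ℝ, 0 < c ∧ ∃ Z₀ : ℝ, ∀ Z : ℕ, Z₀ ≤ Z → ∀ M : Fin n → ℤ, ∃ x : Fin n → ℤ,
      (∀ i, M i < x i ∧ x i ≤ M i + Z) ∧ ∀ j, ∀ n : ℤ, |(n : ℝ) - MvPolynomial.eval x (F j)| ≤ c * ff Z →
        ∃ p : ℕ, p.Prime ∧ (p : ℝ) ≤ (Z : ℝ) ^ (1 / 10 : ℝ) ∧ (p : ℤ) ∣ n := by
  have hF0 : ∀ j, F j ≠ 0 := by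
    intro j h
    have := (hF j).ne_zero
    rw [h, map_zero] at this
    exact this rfl
  have hFc : ∀ j, ∀ c : ℤ, F j ≠ MvPolynomial.C c := by
    intro j c hc
    have h1 := const_zero (F j) w (D j) (hD j) (hw j)
    rw [hc, MvPolynomial.constantCoeff_C] at h1
    apply hF0 j
    rw [hc, h1, map_zero]
  have hcast : ∀ (p : ℕ) (r : ZMod p), (∀ v ∈ ({0} : Finset ℤ), r ≠ (v : ZMod p)) → r ≠ 0 := by
    intro p r hr h
    refine hr 0 (mem_singleton_self _) ?_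
    rw [h]
    simp
  refine crit4 n F hFc (fun _ => {0}) ?_ ?_ ?_
  · intro j r hr B
    rw [mem_singleton] at hr
    obtain ⟨p, hp1, hp2⟩ := Nat.exists_infinite_primes (B + 1)
    refine ⟨p, hp2, by omega, 0, ?_⟩
    rw [hr, sub_zero, MvPolynomial.eval_zero, const_zero (F j) w (D j) (hD j) (hw j)]
    exact dvd_zero _
  · intro j
    obtain ⟨C, hC, B₀, h⟩ := sq_U (F j) (hF j) (hFc j) w (D j) (hD j) (hw j)
    refine ⟨C, hC, B₀, fun p _ hp r hr => ?_⟩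
    refine le_trans ?_ (h p hp r (hcast p r hr))
    exact le_of_eq (by congr!)
  · intro i j hij
    obtain ⟨C, hC, B₀, h⟩ := forms_P (F i) (F j) (hF i) (hF j) (hF0 i) (hF0 j) (hne i j hij) w (D i) (D j)
      (hD i) (hD j) (hw i) (hw j)
    refine ⟨C, hC, B₀, fun p _ hp r s hr hs => ?_⟩
    refine le_trans ?_ (h p hp r s (hcast p r hr) (hcast p s hs))
    exact le_of_eq (by congr!)

end Pool.Agent.Y837.SW
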