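import Pool.Agent.Y837.SW.Line
import Pool.Agent.Y837.SV.WtOne

set_option autoImplicit false
set_option linter.unusedVariables false

/-! # The fibres of squarefree weighted homogeneous polynomials modulo `p` (project SW, helper837) -/

namespace Pool.Agent.Y837.SW

open Finset
open Pool.Agent.Y837.SV (rp rp_eval rp_degree scale_aeval)

theorem exists_degreeOf {n : ℕ} (F : MvPolynomial (Fin n) ℤ) (hc : ∀ c, F ≠ MvPolynomial.C c) :
    ∃ i, 0 < F.degreeOf i := by
  by_contra h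
  push Not at h
  apply hc (F.coeff 0)
  rw [← MvPolynomial.vars_eq_empty_iff_eq_C, Finset.eq_empty_iff_forall_notMem]
  intro i hi
  rw [MvPolynomial.vars_def, Multiset.mem_toFinset, ← Multiset.count_pos] at hi
  have := h i
  rw [MvPolynomial.degreeOf_def] at this
  omega

theorem squarefree_rename {n : ℕ} (e : Fin n ≃ Fin n) (F : MvPolynomial (Fin n) ℚ) (hF : Squarefree F) :
    Squarefree (MvPolynomial.rename e F) := by
  intro g hg
  have h1 : (MvPolynomial.renameEquiv ℚ e).symm g * (MvPolynomial.renameEquiv ℚ e).symm g ∣ F := by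
    have h2 : (MvPolynomial.renameEquiv ℚ e).symm (g * g) ∣
        (MvPolynomial.renameEquiv ℚ e).symm (MvPolynomial.rename e F) := map_dvd _ hg
    rw [map_mul] at h2
    have h3 : (MvPolynomial.renameEquiv ℚ e).symm (MvPolynomial.rename e F) = F := by
      have : MvPolynomial.rename e F = MvPolynomial.renameEquiv ℚ e F := rfl
      rw [this, AlgEquiv.symm_apply_apply]
    rw [h3] at h2
    exact h2
  have h4 := hF _ h1
  have h5 := h4.map (MvPolynomial.renameEquiv ℚ e)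
  rwa [AlgEquiv.apply_symm_apply] at h5

/-- character sums over the values of a squarefree polynomial -/
theorem char_gen {n : ℕ} (F : MvPolynomial (Fin n) ℤ)
    (hF : Squarefree (MvPolynomial.map (algebraMap ℤ ℚ) F)) (hc : ∀ c, F ≠ MvPolynomial.C c) (D : ℕ) :
    ∃ C : ℝ, 0 ≤ C ∧ ∃ B₀ : ℕ, ∀ p : ℕ, ∀ [Fact p.Prime], B₀ < p → ∀ t : ℕ, 2 ≤ t → t ≤ D → t ∣ p - 1 →
      ∀ χ : MulChar (ZMod p) ℂ, χ ≠ 1 → χ ^ t = 1 →
      ‖∑ x : Fin n → ZMod p, χ (MvPolynomial.aeval x F)‖ * Real.sqrt p ≤ C * (p : ℝ) ^ n := by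
  obtain ⟨i, hi⟩ := exists_degreeOf F hc
  rcases n with _ | m
  · exact i.elim0
  obtain ⟨G, hG⟩ : ∃ G, G = MvPolynomial.rename (Equiv.swap 0 i) F := ⟨_, rfl⟩
  have hGd : 0 < G.degreeOf 0 := by
    have h1 := MvPolynomial.degreeOf_rename_of_injective (p := F) (Equiv.swap (0 : Fin (m + 1)) i).injective i
    rw [Equiv.swap_apply_right, ← hG] at h1
    omega
  have hGs : Squarefree (MvPolynomial.map (algebraMap ℤ ℚ) G) := by
    rw [hG, MvPolynomial.map_rename]
    exact squarefree_rename _ _ hF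
  obtain ⟨C, hC, B₀, h⟩ := char_line G hGs hGd D
  refine ⟨C, hC, B₀, ?_⟩
  intro p _ hp t h1 h2 h3 χ h4 h5
  have h6 := h p hp t h1 h2 h3 χ h4 h5
  have h7 : ∑ x : Fin (m + 1) → ZMod p, χ (MvPolynomial.aeval x G) =
      ∑ x : Fin (m + 1) → ZMod p, χ (MvPolynomial.aeval x F) := by
    refine Fintype.sum_equiv (Equiv.arrowCongr (Equiv.swap 0 i) (Equiv.refl _)) _ _ fun x => ?_
    rw [hG, MvPolynomial.aeval_rename]
    congr 2
  rwa [h7] at h6

section

variable {p : ℕ} [Fact p.Prime]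

/-- the sums with characters that are nontrivial on the powers vanish -/
theorem char_vanish {n : ℕ} (F : MvPolynomial (Fin n) ℤ) (w : Fin n → ℤ) (D : ℤ)
    (hw : ∀ e ∈ F.support, ∑ i, w i * (e i : ℤ) = D) (χ : MulChar (ZMod p) ℂ) (hχ : χ ^ D.natAbs ≠ 1) :
    ∑ x : Fin n → ZMod p, χ (MvPolynomial.aeval x F) = 0 := by
  obtain ⟨u, hu⟩ := MulChar.ne_one_iff.1 hχ
  obtain ⟨l, hl0, hl⟩ : ∃ l : ZMod p, l ≠ 0 ∧ l ^ D = (u : ZMod p) ^ D.natAbs := by
    rcases Int.natAbs_eq D with h | h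
    · refine ⟨u, u.ne_zero, ?_⟩
      conv_lhs => rw [h]
      exact zpow_natCast _ _
    · refine ⟨(u : ZMod p)⁻¹, inv_ne_zero u.ne_zero, ?_⟩
      conv_lhs => rw [h]
      rw [inv_zpow', neg_neg]
      exact zpow_natCast _ _
  have h1 : ∑ x : Fin n → ZMod p, χ (MvPolynomial.aeval x F) =
      ∑ x : Fin n → ZMod p, χ (MvPolynomial.aeval (fun i => x i * l ^ (w i)) F) := by
    refine (Fintype.sum_equiv (Equiv.piCongrRight fun i => Equiv.mulRight₀ (l ^ (w i)) (zpow_ne_zero _ hl0))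
      _ _ fun x => ?_).symm
    rfl
  have h2 : ∀ x : Fin n → ZMod p, χ (MvPolynomial.aeval (fun i => x i * l ^ (w i)) F) =
      (χ ^ D.natAbs) (u : ZMod p) * χ (MvPolynomial.aeval x F) := by
    intro x
    rw [scale_aeval F w D hw x l hl0, hl, map_mul, map_pow, MulChar.pow_apply_coe]
  simp_rw [h2] at h1
  rw [← Finset.mul_sum] at h1
  have h3 : (1 - (χ ^ D.natAbs) (u : ZMod p)) * ∑ x : Fin n → ZMod p, χ (MvPolynomial.aeval x F) = 0 := by
    rw [sub_mul, one_mul, ← h1, sub_self]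
  rcases mul_eq_zero.1 h3 with h4 | h4
  · exact absurd (sub_eq_zero.1 h4).symm hu
  · exact h4

open Classical in
/-- there are at most `k` characters with `χ ^ k = 1` -/
theorem char_card (k : ℕ) (hk : 0 < k) :
    (univ.filter (fun χ : DirichletCharacter ℂ p => χ ^ k = 1)).card ≤ k := by
  obtain ⟨g, hg⟩ := IsCyclic.exists_generator (α := (ZMod p)ˣ)
  have h1 : (univ.filter (fun χ : DirichletCharacter ℂ p => χ ^ k = 1)).card ≤
      (Polynomial.nthRoots k (1 : ℂ)).toFinset.card := by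
    apply Finset.card_le_card_of_injOn (fun χ => χ (g : ZMod p))
    · intro χ hχ
      rw [Finset.mem_coe, mem_filter] at hχ
      rw [Finset.mem_coe, Multiset.mem_toFinset, Polynomial.mem_nthRoots hk, ← MulChar.pow_apply_coe, hχ.2,
        MulChar.one_apply_coe]
    · intro χ _ ψ _ h
      exact (MulChar.eq_iff hg χ ψ).2 h
  refine h1.trans ((Multiset.toFinset_card_le _).trans ?_)
  exact Polynomial.card_nthRoots k 1

end

open Classical in
/-- **The fibres are equidistributed modulo `p`** -/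
theorem sq_U {n : ℕ} (F : MvPolynomial (Fin n) ℤ)
    (hF : Squarefree (MvPolynomial.map (algebraMap ℤ ℚ) F)) (hc : ∀ c, F ≠ MvPolynomial.C c)
    (w : Fin n → ℤ) (D : ℤ) (hD : D ≠ 0) (hw : ∀ e ∈ F.support, ∑ i, w i * (e i : ℤ) = D) :
    ∃ C : ℝ, 0 ≤ C ∧ ∃ B₀ : ℕ, ∀ p : ℕ, ∀ [Fact p.Prime], B₀ < p → ∀ r : ZMod p, r ≠ 0 →
      |(p : ℝ) * ((univ.filter (fun x : Fin n → ZMod p => MvPolynomial.aeval x F = r)).card : ℝ) - (p : ℝ) ^ n| *
        Real.sqrt p ≤ C * (p : ℝ) ^ n := by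
  obtain ⟨C₁, hC₁, B₁, h1⟩ := char_gen F hF hc D.natAbs
  obtain ⟨v, hv1, hv2⟩ := Pool.Agent.Y837.SV.nonconst_B F hc
  have hD0 : 0 < D.natAbs := Int.natAbs_pos.2 hD
  refine ⟨D.natAbs * C₁ + 2 * F.totalDegree, by positivity,
    B₁ + (MvPolynomial.eval v F - MvPolynomial.eval 0 F).natAbs, ?_⟩
  intro p _ hp r hr
  have hpp := (Fact.out : p.Prime)
  have hp0 : (0 : ℝ) < p := by exact_mod_cast hpp.pos
  have hp1 : (1 : ℝ) ≤ p := by exact_mod_cast hpp.one_lt.le
  have hsq : Real.sqrt p * Real.sqrt p = p := Real.mul_self_sqrt hp0.le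
  have hs0 : 0 ≤ Real.sqrt p := Real.sqrt_nonneg _
  have hs1 : Real.sqrt p ≤ p := by
    have : 1 ≤ Real.sqrt p := by rw [Real.one_le_sqrt]; exact hp1
    nlinarith
  obtain ⟨N, hN⟩ : ∃ N : ZMod p → ℕ, N = fun r =>
    (univ.filter (fun x : Fin n → ZMod p => MvPolynomial.aeval x F = r)).card := ⟨_, rfl⟩
  have hNr : (univ.filter (fun x : Fin n → ZMod p => MvPolynomial.aeval x F = r)).card = N r := by rw [hN]
  rw [hNr]
  have hNb : ∀ s : ZMod p, (N s : ℝ) * p ≤ F.totalDegree * (p : ℝ) ^ n := by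
    intro s
    have h2 := Pool.Agent.Y837.SV.sz_count (p := p) (rp p F) (rp_degree F)
      (fun c => Pool.Agent.Y837.SV.rp_nonconst F v 0 (hv2 p (by omega)) c) s
    have h3 : (univ.filter (fun x : Fin n → ZMod p => MvPolynomial.eval x (rp p F) = s)).card = N s := by
      rw [hN]
      simp only [rp_eval]
    rw [h3] at h2
    exact h2
  have hNs : ∀ s : ZMod p, (N s : ℝ) * Real.sqrt p ≤ F.totalDegree * (p : ℝ) ^ n := by
    intro s
    refine le_trans ?_ (hNb s)
    exact mul_le_mul_of_nonneg_left hs1 (Nat.cast_nonneg _)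
  -- orthogonality
  have horth : ∑ χ : DirichletCharacter ℂ p, χ r⁻¹ * ∑ x : Fin n → ZMod p, χ (MvPolynomial.aeval x F) =
      (((p : ℝ) - 1) * N r : ℝ) := by
    have h2 : ∑ χ : DirichletCharacter ℂ p, χ r⁻¹ * ∑ x : Fin n → ZMod p, χ (MvPolynomial.aeval x F) =
        ∑ x : Fin n → ZMod p, ∑ χ : DirichletCharacter ℂ p, χ r⁻¹ * χ (MvPolynomial.aeval x F) := by
      simp_rw [Finset.mul_sum]
      exact Finset.sum_comm
    rw [h2]
    have h3 : ∀ x : Fin n → ZMod p, ∑ χ : DirichletCharacter ℂ p, χ r⁻¹ * χ (MvPolynomial.aeval x F) =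
        if MvPolynomial.aeval x F = r then ((p : ℂ) - 1) else 0 := by
      intro x
      rw [DirichletCharacter.sum_char_inv_mul_char_eq ℂ (isUnit_iff_ne_zero.2 hr)]
      have h4 : ((p.totient : ℕ) : ℂ) = (p : ℂ) - 1 := by
        rw [Nat.totient_prime hpp, Nat.cast_sub hpp.one_lt.le, Nat.cast_one]
      rw [h4]
      by_cases h5 : MvPolynomial.aeval x F = r
      · rw [if_pos h5, if_pos h5.symm]
      · rw [if_neg h5, if_neg (fun h => h5 h.symm)]
    simp_rw [h3]
    rw [← Finset.sum_filter, Finset.sum_const, hNr, nsmul_eq_mul]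
    push_cast
    ring
  -- the principal character
  have hprin : (1 : DirichletCharacter ℂ p) r⁻¹ * ∑ x : Fin n → ZMod p,
      (1 : DirichletCharacter ℂ p) (MvPolynomial.aeval x F) = (((p : ℝ) ^ n - N 0 : ℝ) : ℂ) := by
    have h2 : (1 : DirichletCharacter ℂ p) r⁻¹ = 1 :=
      MulChar.one_apply (isUnit_iff_ne_zero.2 (inv_ne_zero hr))
    have h3 : ∀ x : Fin n → ZMod p, (1 : DirichletCharacter ℂ p) (MvPolynomial.aeval x F) =
        1 - (if MvPolynomial.aeval x F = (0 : ZMod p) then (1 : ℂ) else 0) := by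
      intro x
      by_cases h4 : MvPolynomial.aeval x F = (0 : ZMod p)
      · rw [if_pos h4, h4, sub_self]
        exact MulChar.map_nonunit _ not_isUnit_zero
      · rw [if_neg h4, sub_zero]
        exact MulChar.one_apply (isUnit_iff_ne_zero.2 h4)
    simp_rw [h3]
    rw [h2, one_mul, Finset.sum_sub_distrib, Finset.sum_const, card_univ, Fintype.card_fun, ZMod.card,
      Fintype.card_fin, Finset.sum_boole, nsmul_eq_mul, mul_one]
    have h5 : (univ.filter (fun x : Fin n → ZMod p => MvPolynomial.aeval x F = (0 : ZMod p))).card = N 0 := by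
      rw [hN]
    rw [h5]
    push_cast
    ring
  have hmain : ‖((((p : ℝ) - 1) * N r : ℝ) : ℂ) - (((p : ℝ) ^ n - N 0 : ℝ) : ℂ)‖ * Real.sqrt p ≤
      D.natAbs * C₁ * (p : ℝ) ^ n := by
    rw [← horth, ← hprin, ← Finset.sum_erase_eq_sub (mem_univ (1 : DirichletCharacter ℂ p))]
    have h2 : ‖∑ χ ∈ univ.erase (1 : DirichletCharacter ℂ p), χ r⁻¹ *
        ∑ x : Fin n → ZMod p, χ (MvPolynomial.aeval x F)‖ * Real.sqrt p ≤
        ∑ χ ∈ univ.erase (1 : DirichletCharacter ℂ p), if χ ^ D.natAbs = 1 then C₁ * (p : ℝ) ^ n else 0 := by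
      refine (mul_le_mul_of_nonneg_right (norm_sum_le _ _) hs0).trans ?_
      rw [Finset.sum_mul]
      refine Finset.sum_le_sum fun χ hχ => ?_
      have hχ1 := Finset.ne_of_mem_erase hχ
      rw [norm_mul]
      split_ifs with h4
      · -- the order divides the greatest common divisor
        obtain ⟨t, ht⟩ : ∃ t, t = Nat.gcd D.natAbs (p - 1) := ⟨_, rfl⟩
        have h5 : χ ^ (p - 1) = 1 := by
          have := χ.pow_card_eq_one
          rwa [ZMod.card_units] at this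
        have h6 : χ ^ t = 1 := by
          rw [ht]
          exact pow_gcd_eq_one.2 ⟨h4, h5⟩
        have ht0 : 0 < t := by rw [ht]; exact Nat.gcd_pos_of_pos_left _ hD0
        have ht2 : 2 ≤ t := by
          by_contra h7
          have h8 : t = 1 := by omega
          rw [h8, pow_one] at h6
          exact hχ1 h6
        have h7 := h1 p (by omega) t ht2 (by rw [ht]; exact Nat.gcd_le_left _ hD0)
          (by rw [ht]; exact Nat.gcd_dvd_right _ _) χ hχ1 h6
        have h8 : ‖χ r⁻¹‖ ≤ 1 := Pool.Agent.H435R3.Weil.WELE.mc_norm_le_one χ _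
        calc ‖χ r⁻¹‖ * ‖∑ x : Fin n → ZMod p, χ (MvPolynomial.aeval x F)‖ * Real.sqrt p
            ≤ 1 * ‖∑ x : Fin n → ZMod p, χ (MvPolynomial.aeval x F)‖ * Real.sqrt p := by gcongr
          _ ≤ C₁ * (p : ℝ) ^ n := by rw [one_mul]; exact h7
      · rw [char_vanish F w D hw χ h4, norm_zero, mul_zero, zero_mul]
    refine h2.trans ?_
    rw [← Finset.sum_filter, Finset.sum_const, nsmul_eq_mul]
    have h9 : ((univ.erase (1 : DirichletCharacter ℂ p)).filter (fun χ => χ ^ D.natAbs = 1)).card ≤ D.natAbs := by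
      refine (Finset.card_le_card ?_).trans (char_card (p := p) D.natAbs hD0)
      intro χ hχ
      rw [mem_filter] at hχ ⊢
      exact ⟨mem_univ _, hχ.2⟩
    have h10 : (((univ.erase (1 : DirichletCharacter ℂ p)).filter (fun χ => χ ^ D.natAbs = 1)).card : ℝ) ≤
        D.natAbs := by exact_mod_cast h9
    rw [mul_assoc]
    exact mul_le_mul_of_nonneg_right h10 (by positivity)
  rw [← Complex.ofReal_sub, Complex.norm_real, Real.norm_eq_abs] at hmain
  have e1 : (p : ℝ) * N r - (p : ℝ) ^ n = (((p : ℝ) - 1) * N r - ((p : ℝ) ^ n - N 0)) + (N r - N 0) := by ring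
  have e2 : |(p : ℝ) * N r - (p : ℝ) ^ n| ≤ |((p : ℝ) - 1) * N r - ((p : ℝ) ^ n - N 0)| + (N r + N 0) := by
    rw [e1]
    refine (abs_add_le _ _).trans ?_
    have h2 : |(N r : ℝ) - N 0| ≤ N r + N 0 := by
      have h3 : (0 : ℝ) ≤ N r := Nat.cast_nonneg _
      have h4 : (0 : ℝ) ≤ N 0 := Nat.cast_nonneg _
      rw [abs_le]
      constructor <;> linarith
    linarith
  have h2 := mul_le_mul_of_nonneg_right e2 hs0
  have h3 := hNs r
  have h4 := hNs 0
  calc |(p : ℝ) * N r - (p : ℝ) ^ n| * Real.sqrt p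
      ≤ (|((p : ℝ) - 1) * N r - ((p : ℝ) ^ n - N 0)| + (N r + N 0)) * Real.sqrt p := h2
    _ = |((p : ℝ) - 1) * N r - ((p : ℝ) ^ n - N 0)| * Real.sqrt p + N r * Real.sqrt p + N 0 * Real.sqrt p := by ring
    _ ≤ (D.natAbs * C₁ + 2 * F.totalDegree) * (p : ℝ) ^ n := by
        have e4 : (D.natAbs * C₁ + 2 * F.totalDegree) * (p : ℝ) ^ n =
            D.natAbs * C₁ * (p : ℝ) ^ n + F.totalDegree * (p : ℝ) ^ n + F.totalDegree * (p : ℝ) ^ n := by ring
        rw [e4]
        linarith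

end Pool.Agent.Y837.SW
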