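import Pool.Agent.H435R3.Weil.Irr

set_option autoImplicit false

/-! # Irreducibility of `X ^ t - c / f` over `F(x)` when `f` is not a constant times a power
(project SW, helper837) -/

namespace Pool.Agent.Y837.SW

open Polynomial Finset
open Pool.Agent.H435R3.Weil (coeff_zero_pow)

/-- `f` is not a constant times the `d`-th power of a polynomial, for the divisors `d > 1` of `t` -/
def NP {F : Type*} [Field F] (t : ℕ) (f : F[X]) : Prop :=
  ∀ d : ℕ, d ∣ t → 1 < d → ∀ (c : F) (g : F[X]), f ≠ C c * g ^ d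

/-- the arithmetic of `u ^ t f ^ k = κ w ^ t` -/
theorem dvd_of_pow_eq {F : Type*} [Field F] {t k : ℕ} (ht : 0 < t) (f u w : F[X]) (hf : f ≠ 0)
    (hu : u ≠ 0) (κ : F) (hκ : κ ≠ 0) (h : u ^ t * f ^ k = C κ * w ^ t) (hnp : NP t f) : t ∣ k := by
  obtain ⟨g, hg⟩ : ∃ g, g = Nat.gcd k t := ⟨_, rfl⟩
  have hg0 : 0 < g := by rw [hg]; exact Nat.gcd_pos_of_pos_right _ ht
  obtain ⟨k', hk'⟩ : g ∣ k := by rw [hg]; exact Nat.gcd_dvd_left _ _
  obtain ⟨t', ht'⟩ : g ∣ t := by rw [hg]; exact Nat.gcd_dvd_right _ _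
  have hcop : Nat.Coprime k' t' := by
    have h1 : Nat.gcd (g * k') (g * t') = g := by rw [← hk', ← ht', ← hg]
    rw [Nat.gcd_mul_left] at h1
    exact Nat.eq_of_mul_eq_mul_left hg0 (by rw [h1, mul_one])
  by_cases h1 : t' = 1
  · rw [ht', h1, mul_one, hk']
    exact Dvd.intro _ rfl
  exfalso
  have ht'0 : 0 < t' := by
    rcases Nat.eq_zero_or_pos t' with h0 | h0
    · rw [h0, mul_zero] at ht'; omega
    · exact h0
  have ht'1 : 1 < t' := by omega
  have hCκ : IsUnit (C κ : F[X]) := isUnit_C.2 (isUnit_iff_ne_zero.2 hκ)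
  have e1 : (u ^ t' * f ^ k') ^ g = C κ * (w ^ t') ^ g := by
    rw [mul_pow, ← pow_mul, ← pow_mul, ← pow_mul, mul_comm t' g, mul_comm k' g, ← ht', ← hk']
    exact h
  have d1 : u ^ t' * f ^ k' ∣ w ^ t' := by
    rw [← IsIntegrallyClosed.pow_dvd_pow_iff hg0.ne', e1]
    exact (hCκ.mul_left_dvd).2 dvd_rfl
  have d2 : w ^ t' ∣ u ^ t' * f ^ k' := by
    rw [← IsIntegrallyClosed.pow_dvd_pow_iff hg0.ne', e1]
    exact Dvd.intro_left _ rfl
  obtain ⟨w1, hw1⟩ : u ∣ w := by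
    rw [← IsIntegrallyClosed.pow_dvd_pow_iff ht'0.ne']
    exact (Dvd.intro _ rfl).trans d1
  obtain ⟨μ, hμ⟩ := associated_of_dvd_dvd d1 d2
  obtain ⟨m0, hm0, hm0'⟩ := Polynomial.isUnit_iff.1 (μ⁻¹).isUnit
  have e2 : f ^ k' = C m0 * w1 ^ t' := by
    have h2 : u ^ t' * f ^ k' = C m0 * w ^ t' := by
      rw [hm0', ← hμ]
      rw [mul_comm (((μ⁻¹ : (F[X])ˣ)) : F[X]), mul_assoc, Units.mul_inv, mul_one]
    rw [hw1, mul_pow] at h2
    have h3 : u ^ t' * f ^ k' = u ^ t' * (C m0 * w1 ^ t') := by rw [h2]; ring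
    exact mul_left_cancel₀ (pow_ne_zero _ hu) h3
  obtain ⟨m, -, hm⟩ := Nat.exists_mul_mod_eq_one_of_coprime hcop ht'1
  obtain ⟨b, hb⟩ : ∃ b, b = k' * m / t' := ⟨_, rfl⟩
  have hb' : k' * m = b * t' + 1 := by
    rw [hb]
    have := Nat.div_add_mod' (k' * m) t'
    rw [hm] at this
    exact this.symm
  have e3 : (f ^ b) ^ t' * f = C (m0 ^ m) * (w1 ^ m) ^ t' := by
    have h2 : (f ^ k') ^ m = (C m0 * w1 ^ t') ^ m := by rw [e2]
    rw [← pow_mul, hb', pow_succ, pow_mul, mul_pow, ← C_pow, pow_right_comm w1 t' m] at h2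
    exact h2
  have hm0u : IsUnit (C (m0 ^ m) : F[X]) := isUnit_C.2 (hm0.pow m)
  obtain ⟨h', hh'⟩ : f ^ b ∣ w1 ^ m := by
    rw [← IsIntegrallyClosed.pow_dvd_pow_iff ht'0.ne']
    have : (f ^ b) ^ t' ∣ C (m0 ^ m) * (w1 ^ m) ^ t' := by rw [← e3]; exact Dvd.intro _ rfl
    exact (hm0u.dvd_mul_left).1 this
  have e4 : f = C (m0 ^ m) * h' ^ t' := by
    rw [hh', mul_pow] at e3
    have : (f ^ b) ^ t' * f = (f ^ b) ^ t' * (C (m0 ^ m) * h' ^ t') := by rw [e3]; ring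
    exact mul_left_cancel₀ (pow_ne_zero _ (pow_ne_zero _ hf)) this
  exact hnp t' (by rw [ht']; exact Dvd.intro_left _ rfl) ht'1 _ _ e4

theorem irr {F : Type*} [Field F] {t : ℕ} (ht : 2 ≤ t) (f : F[X]) (hf : f ≠ 0) (e : F)
    (he : e ≠ 0) (hnp : NP t f) :
    Irreducible (X ^ t - C (algebraMap F[X] (RatFunc F) (C e) / algebraMap F[X] (RatFunc F) f) :
      (RatFunc F)[X]) := by
  set φ : F[X] →+* RatFunc F := algebraMap F[X] (RatFunc F) with hφ
  have hinj : Function.Injective φ := RatFunc.algebraMap_injective F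
  set c : RatFunc F := φ (C e) / φ f with hc
  have hφf : φ f ≠ 0 := by rw [map_ne_zero_iff _ hinj]; exact hf
  have hmon : (X ^ t - C c : (RatFunc F)[X]).Monic := monic_X_pow_sub_C c (by omega)
  have hnd : (X ^ t - C c : (RatFunc F)[X]).natDegree = t := natDegree_X_pow_sub_C
  have hne1 : (X ^ t - C c : (RatFunc F)[X]) ≠ 1 := by
    intro h
    have := congrArg natDegree h
    rw [hnd, natDegree_one] at this
    omega
  rw [hmon.irreducible_iff_lt_natDegree_lt hne1]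
  intro g hg hgd hdvd
  rw [mem_Ioc, hnd] at hgd
  set k := g.natDegree with hk
  have h1 := coeff_zero_pow t (by omega) c g hg hdvd
  rw [← hk] at h1
  -- write the constant coefficient as a fraction
  obtain ⟨u, w, hw0, huw⟩ := IsFractionRing.div_surjective (A := F[X]) (g.coeff 0)
  have hw : w ≠ 0 := nonZeroDivisors.ne_zero hw0
  have hφw : φ w ≠ 0 := by rw [map_ne_zero_iff _ hinj]; exact hw
  rw [← huw, hc, div_pow, div_pow] at h1
  have h2 : φ (u ^ t * f ^ k) = φ ((-1) ^ (k * t) * C e ^ k * w ^ t) := by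
    rw [map_mul, map_mul, map_mul, map_pow, map_pow, map_pow, map_pow, map_pow]
    have h3 : φ u ^ t / φ w ^ t = (-1) ^ (k * t) * (φ (C e) ^ k / φ f ^ k) := h1
    rw [div_eq_iff (pow_ne_zero _ hφw)] at h3
    rw [h3, map_neg, map_one]
    field_simp
  have h3 : u ^ t * f ^ k = (-1) ^ (k * t) * C e ^ k * w ^ t := hinj h2
  have hCe : (C e : F[X]) ≠ 0 := C_ne_zero.2 he
  have hrhs : (-1 : F[X]) ^ (k * t) * C e ^ k * w ^ t ≠ 0 :=
    mul_ne_zero (mul_ne_zero (pow_ne_zero _ (neg_ne_zero.2 one_ne_zero)) (pow_ne_zero _ hCe))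
      (pow_ne_zero _ hw)
  have hu : u ≠ 0 := by
    rintro rfl
    rw [← h3, zero_pow (by omega), zero_mul] at hrhs
    exact hrhs rfl
  have hκ : ((-1 : F) ^ (k * t) * e ^ k) ≠ 0 :=
    mul_ne_zero (pow_ne_zero _ (neg_ne_zero.2 one_ne_zero)) (pow_ne_zero _ he)
  have h4 : u ^ t * f ^ k = C ((-1 : F) ^ (k * t) * e ^ k) * w ^ t := by
    rw [h3, C_mul, C_pow, C_pow, C_neg, C_1]
  have h7 : t ∣ k := dvd_of_pow_eq (by omega) f u w hf hu _ hκ h4 hnp
  have h8 := Nat.le_of_dvd hgd.1 h7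
  have h9 : t / 2 < t := Nat.div_lt_self (by omega) (by norm_num)
  omega

/-- translations -/
theorem NP_comp {F : Type*} [Field F] {t : ℕ} (f : F[X]) (c : F) (h : NP t f) :
    NP t (f.comp (X + C c)) := by
  intro d hd hd1 a g hg
  apply h d hd hd1 a (g.comp (X - C c))
  have h1 : (f.comp (X + C c)).comp (X - C c) = f := by
    rw [comp_assoc]
    simp
  rw [← h1, hg, mul_comp, C_comp, pow_comp]

/-- squarefree polynomials of positive degree -/
theorem NP_of_squarefree {F : Type*} [Field F] {t : ℕ} (f : F[X]) (hf : Squarefree f)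
    (hd : 0 < f.natDegree) : NP t f := by
  intro d _ hd1 c g hg
  have h1 : g * g ∣ f := by
    rw [hg]
    refine Dvd.dvd.mul_left ?_ _
    rw [← sq]
    exact pow_dvd_pow _ hd1
  have h2 := hf g h1
  have h3 : f.natDegree = 0 := by
    rw [hg]
    have h4 := natDegree_eq_zero_of_isUnit h2
    have h5 : (C c * g ^ d).natDegree ≤ 0 := by
      refine (natDegree_C_mul_le _ _).trans (natDegree_pow_le.trans ?_)
      rw [h4, mul_zero]
    omega
  omega

end Pool.Agent.Y837.SW
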