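import Mathlib

set_option autoImplicit false

/-! # Squarefree polynomials over a domain and the Bezout identity with the derivative
(project SW, helper837) -/

namespace Pool.Agent.Y837.SW

open Polynomial

/-- Gauss's lemma for squares and the separability in characteristic zero -/
theorem bezout_of_sq {R : Type} [CommRing R] [IsDomain R] [UniqueFactorizationMonoid R] [CharZero R]
    (Φ : R[X]) (hd : 0 < Φ.natDegree)
    (hsq : ∀ g h : R[X], Φ = g ^ 2 * h → g.natDegree = 0) :
    ∃ (A B : R[X]) (r : R), r ≠ 0 ∧ A * Φ + B * derivative Φ = C r := by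
  classical
  letI : NormalizedGCDMonoid R := Classical.choice inferInstance
  obtain ⟨K, i1, i2, i3⟩ : ∃ (K : Type) (_ : Field K) (_ : Algebra R K), IsFractionRing R K :=
    ⟨FractionRing R, inferInstance, inferInstance, inferInstance⟩
  have hinj : Function.Injective (algebraMap R K) := IsFractionRing.injective R K
  have hchar : CharZero K := charZero_of_injective_algebraMap hinj
  have hΦ0 : Φ ≠ 0 := by
    rintro rfl
    simp at hd
  have hΦK : Φ.map (algebraMap R K) ≠ 0 := (Polynomial.map_ne_zero_iff hinj).2 hΦ0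
  have hsqK : Squarefree (Φ.map (algebraMap R K)) := by
    intro g hg
    by_contra hgu
    have hg0 : g ≠ 0 := by
      rintro rfl
      rw [zero_mul, zero_dvd_iff] at hg
      exact hΦK hg
    have hgd : 0 < g.natDegree := by
      by_contra h
      apply hgu
      have h1 : g.natDegree = 0 := by omega
      obtain ⟨c, hc⟩ := natDegree_eq_zero.1 h1
      rw [← hc] at hg0 ⊢
      exact isUnit_C.2 (isUnit_iff_ne_zero.2 (C_ne_zero.1 hg0))
    obtain ⟨b, hb, hg1⟩ := IsLocalization.integerNormalization_spec (nonZeroDivisors R) g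
    obtain ⟨g1, hg1'⟩ : ∃ g1, g1 = IsLocalization.integerNormalization (nonZeroDivisors R) g := ⟨_, rfl⟩
    rw [← hg1'] at hg1
    have hb0 : algebraMap R K b ≠ 0 := by
      rw [map_ne_zero_iff _ hinj]
      exact nonZeroDivisors.ne_zero hb
    have hg1b : g1.map (algebraMap R K) = C (algebraMap R K b) * g := by
      rw [hg1, Algebra.smul_def, Polynomial.algebraMap_apply]
    have hg10 : g1 ≠ 0 := by
      rintro rfl
      rw [Polynomial.map_zero] at hg1b
      exact (mul_ne_zero (C_ne_zero.2 hb0) hg0) hg1b.symm
    have hct : algebraMap R K g1.content ≠ 0 := by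
      rw [map_ne_zero_iff _ hinj, Ne, content_eq_zero_iff]
      exact hg10
    have hprim : g1.map (algebraMap R K) = C (algebraMap R K g1.content) * g1.primPart.map (algebraMap R K) := by
      conv_lhs => rw [g1.eq_C_content_mul_primPart]
      rw [Polynomial.map_mul, map_C]
    have hassoc : g1.primPart.map (algebraMap R K) =
        C ((algebraMap R K g1.content)⁻¹ * algebraMap R K b) * g := by
      have h1 : C (algebraMap R K g1.content) * g1.primPart.map (algebraMap R K) =
          C (algebraMap R K g1.content) * (C ((algebraMap R K g1.content)⁻¹ * algebraMap R K b) * g) := by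
        rw [← hprim, hg1b, ← mul_assoc, ← C_mul, mul_inv_cancel_left₀ hct]
      exact mul_left_cancel₀ (C_ne_zero.2 hct) h1
    have hu : IsUnit (C ((algebraMap R K g1.content)⁻¹ * algebraMap R K b) : K[X]) :=
      isUnit_C.2 (isUnit_iff_ne_zero.2 (mul_ne_zero (inv_ne_zero hct) hb0))
    have hdvd : (g1.primPart * g1.primPart) ∣ Φ := by
      apply (g1.isPrimitive_primPart.mul g1.isPrimitive_primPart).dvd_of_fraction_map_dvd_fraction_map (K := K)
      rw [Polynomial.map_mul, hassoc]
      have e : C ((algebraMap R K g1.content)⁻¹ * algebraMap R K b) * g *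
          (C ((algebraMap R K g1.content)⁻¹ * algebraMap R K b) * g) =
          (C ((algebraMap R K g1.content)⁻¹ * algebraMap R K b) *
            C ((algebraMap R K g1.content)⁻¹ * algebraMap R K b)) * (g * g) := by ring
      rw [e]
      exact (hu.mul hu).mul_left_dvd.2 hg
    obtain ⟨h, hh⟩ := hdvd
    have h1 := hsq g1.primPart h (by rw [hh, sq])
    rw [natDegree_primPart] at h1
    have h2 : (g1.map (algebraMap R K)).natDegree = g1.natDegree := natDegree_map_eq_of_injective hinj _
    rw [hg1b, natDegree_C_mul hb0, h1] at h2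
    omega
  have hsep : (Φ.map (algebraMap R K)).Separable := PerfectField.separable_iff_squarefree.2 hsqK
  obtain ⟨A, B, hAB⟩ := hsep
  obtain ⟨a, ha, hA⟩ := IsLocalization.integerNormalization_spec (nonZeroDivisors R) A
  obtain ⟨b, hb, hB⟩ := IsLocalization.integerNormalization_spec (nonZeroDivisors R) B
  obtain ⟨A1, hA1⟩ : ∃ g1, g1 = IsLocalization.integerNormalization (nonZeroDivisors R) A := ⟨_, rfl⟩
  obtain ⟨B1, hB1⟩ : ∃ g1, g1 = IsLocalization.integerNormalization (nonZeroDivisors R) B := ⟨_, rfl⟩
  rw [← hA1] at hA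
  rw [← hB1] at hB
  rw [Algebra.smul_def, Polynomial.algebraMap_apply] at hA hB
  refine ⟨C b * A1, C a * B1, a * b, mul_ne_zero (nonZeroDivisors.ne_zero ha) (nonZeroDivisors.ne_zero hb), ?_⟩
  apply Polynomial.map_injective _ hinj
  rw [Polynomial.map_add, Polynomial.map_mul, Polynomial.map_mul, Polynomial.map_mul, Polynomial.map_mul,
    map_C, map_C, map_C, hA, hB, ← derivative_map, map_mul, C_mul]
  linear_combination (C (algebraMap R K a) * C (algebraMap R K b)) * hAB

/-- the specialisations -/
theorem squarefree_spec {R : Type} [CommRing R] {F : Type} [Field F] (ε : R →+* F) (Φ A B : R[X]) (r : R)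
    (h : A * Φ + B * derivative Φ = C r) (hr : ε r ≠ 0) : Squarefree (Φ.map ε) := by
  apply Polynomial.Separable.squarefree
  refine ⟨C (ε r)⁻¹ * A.map ε, C (ε r)⁻¹ * B.map ε, ?_⟩
  have h1 := congrArg (Polynomial.map ε) h
  rw [Polynomial.map_add, Polynomial.map_mul, Polynomial.map_mul, map_C, ← derivative_map] at h1
  have h2 : C (ε r)⁻¹ * C (ε r) = (1 : F[X]) := by rw [← C_mul, inv_mul_cancel₀ hr, C_1]
  linear_combination C (ε r)⁻¹ * h1 + h2

end Pool.Agent.Y837.SW
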