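import Pool.Agent.Y837.SW.Bound
import Pool.Agent.Y837.SW.Sq
import Pool.Agent.Y837.SV.Three2

set_option autoImplicit false
set_option linter.unusedVariables false

/-! # Character sums of squarefree polynomials in several variables modulo `p` (project SW, helper837) -/

namespace Pool.Agent.Y837.SW

open Finset
open Pool.Agent.Y837.SV (rp rp_eval rp_degree)

/-- nonzero polynomials stay nonzero modulo the large primes -/
theorem rp_ne_zero {m : ℕ} (Q : MvPolynomial (Fin m) ℤ) (hQ : Q ≠ 0) :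
    ∃ B₀ : ℕ, ∀ p : ℕ, ∀ [Fact p.Prime], B₀ < p → rp p Q ≠ 0 := by
  obtain ⟨e, he⟩ := MvPolynomial.ne_zero_iff.1 hQ
  refine ⟨(MvPolynomial.coeff e Q).natAbs, ?_⟩
  intro p _ hp h0
  have h1 : MvPolynomial.coeff e (rp p Q) = 0 := by rw [h0, MvPolynomial.coeff_zero]
  rw [rp, MvPolynomial.coeff_map] at h1
  have h2 : ((MvPolynomial.coeff e Q : ℤ) : ZMod p) = 0 := h1
  rw [ZMod.intCast_zmod_eq_zero_iff_dvd] at h2
  have h3 := Int.natAbs_dvd_natAbs.2 h2
  rw [Int.natAbs_natCast] at h3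
  have h4 := Nat.le_of_dvd (Int.natAbs_pos.2 he) h3
  omega

/-- the zeros of a nonzero polynomial modulo `p` -/
theorem sz0 {p : ℕ} [Fact p.Prime] {m D : ℕ} (Q : MvPolynomial (Fin m) ℤ) (hQ : Q.totalDegree ≤ D)
    (hQc : rp p Q ≠ 0) :
    ((univ.filter (fun x : Fin m → ZMod p => MvPolynomial.aeval x Q = 0)).card : ℝ) * p ≤ D * (p : ℝ) ^ m := by
  have hp := (Fact.out : p.Prime)
  have hdeg : (rp p Q).totalDegree ≤ D := (rp_degree Q).trans hQ
  have h1 := MvPolynomial.schwartz_zippel_totalDegree hQc (univ : Finset (ZMod p))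
  rw [card_univ, ZMod.card] at h1
  have h2 : (Fintype.piFinset (fun _ : Fin m => (univ : Finset (ZMod p)))).filter
      (fun f => MvPolynomial.eval f (rp p Q) = 0) =
      univ.filter (fun x : Fin m → ZMod p => MvPolynomial.aeval x Q = 0) := by
    ext x
    simp [rp_eval]
  have hpQ : (0 : ℚ≥0) < p := by exact_mod_cast hp.pos
  rw [div_le_div_iff₀ (by positivity) hpQ] at h1
  have h3 : (((Fintype.piFinset (fun _ : Fin m => (univ : Finset (ZMod p)))).filter
      (fun f => MvPolynomial.eval f (rp p Q) = 0)).card) * p ≤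
        (rp p Q).totalDegree * p ^ m := by
    exact_mod_cast h1
  rw [h2] at h3
  have h4 := h3.trans (Nat.mul_le_mul_right _ hdeg)
  exact_mod_cast h4

/-- squares dividing a polynomial which is squarefree over the rationals -/
theorem sqZ {m : ℕ} (F : MvPolynomial (Fin m) ℤ)
    (hF : Squarefree (MvPolynomial.map (algebraMap ℤ ℚ) F)) (g h : MvPolynomial (Fin m) ℤ)
    (hgh : F = g ^ 2 * h) : ∃ c : ℤ, g = MvPolynomial.C c := by
  have h1 : MvPolynomial.map (algebraMap ℤ ℚ) g * MvPolynomial.map (algebraMap ℤ ℚ) g ∣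
      MvPolynomial.map (algebraMap ℤ ℚ) F := by
    refine ⟨MvPolynomial.map (algebraMap ℤ ℚ) h, ?_⟩
    rw [hgh, map_mul, map_pow, sq]
  have h2 := hF _ h1
  rw [MvPolynomial.isUnit_iff_totalDegree_of_isReduced] at h2
  have h3 : g.totalDegree = 0 := by
    have h4 : (MvPolynomial.map (algebraMap ℤ ℚ) g).totalDegree = g.totalDegree := by
      unfold MvPolynomial.totalDegree
      rw [MvPolynomial.support_map_of_injective _ (algebraMap ℤ ℚ).injective_int]
    rw [← h4]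
    exact h2.2
  exact ⟨_, MvPolynomial.totalDegree_eq_zero_iff_eq_C.1 h3⟩

/-- evaluation through the first variable -/
theorem aeval_cons {p : ℕ} {m : ℕ} (F : MvPolynomial (Fin (m + 1)) ℤ) (y : ZMod p) (z : Fin m → ZMod p) :
    MvPolynomial.aeval (Fin.cons y z : Fin (m + 1) → ZMod p) F =
      Polynomial.eval y (Polynomial.map (MvPolynomial.aeval z : MvPolynomial (Fin m) ℤ →ₐ[ℤ] ZMod p).toRingHom
        (MvPolynomial.finSuccEquiv ℤ m F)) := by
  induction F using MvPolynomial.induction_on with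
  | C a => 
    have h1 : MvPolynomial.finSuccEquiv ℤ m (MvPolynomial.C a) = Polynomial.C (MvPolynomial.C a) :=
      (MvPolynomial.finSuccEquiv ℤ m).commutes a
    rw [h1]
    simp
  | add P Q hP hQ => rw [map_add, hP, hQ, map_add, Polynomial.map_add, Polynomial.eval_add]
  | mul_X P i hP =>
    rw [map_mul, hP, map_mul, Polynomial.map_mul, Polynomial.eval_mul, MvPolynomial.aeval_X]
    congr 1
    refine Fin.cases ?_ (fun k => ?_) i
    · rw [MvPolynomial.finSuccEquiv_X_zero]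
      simp
    · rw [MvPolynomial.finSuccEquiv_X_succ]
      simp

/-- character sums over the values of a squarefree polynomial -/
theorem char_line {m : ℕ} (F : MvPolynomial (Fin (m + 1)) ℤ)
    (hF : Squarefree (MvPolynomial.map (algebraMap ℤ ℚ) F)) (hd : 0 < F.degreeOf 0) (D : ℕ) :
    ∃ C : ℝ, 0 ≤ C ∧ ∃ B₀ : ℕ, ∀ p : ℕ, ∀ [Fact p.Prime], B₀ < p → ∀ t : ℕ, 2 ≤ t → t ≤ D → t ∣ p - 1 →
      ∀ χ : MulChar (ZMod p) ℂ, χ ≠ 1 → χ ^ t = 1 →
      ‖∑ x : Fin (m + 1) → ZMod p, χ (MvPolynomial.aeval x F)‖ * Real.sqrt p ≤ C * (p : ℝ) ^ (m + 1) := by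
  classical
  obtain ⟨P, hP⟩ : ∃ P, P = MvPolynomial.finSuccEquiv ℤ m F := ⟨_, rfl⟩
  have hPd : 0 < P.natDegree := by
    rw [hP, MvPolynomial.natDegree_finSuccEquiv]
    exact hd
  have hP0 : P ≠ 0 := by
    rintro h0
    rw [h0] at hPd
    simp at hPd
  have hsqP : ∀ g h : Polynomial (MvPolynomial (Fin m) ℤ), P = g ^ 2 * h → g.natDegree = 0 := by
    intro g h hgh
    have h1 : F = ((MvPolynomial.finSuccEquiv ℤ m).symm g) ^ 2 * (MvPolynomial.finSuccEquiv ℤ m).symm h := by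
      apply (MvPolynomial.finSuccEquiv ℤ m).injective
      rw [map_mul, map_pow, AlgEquiv.apply_symm_apply, AlgEquiv.apply_symm_apply, ← hP, hgh]
    obtain ⟨c, hc⟩ := sqZ F hF _ _ h1
    have h2 : g = MvPolynomial.finSuccEquiv ℤ m (MvPolynomial.C c) := by
      rw [← hc, AlgEquiv.apply_symm_apply]
    have h3 : MvPolynomial.finSuccEquiv ℤ m (MvPolynomial.C c) = Polynomial.C (MvPolynomial.C c) :=
      (MvPolynomial.finSuccEquiv ℤ m).commutes c
    rw [h2, h3, Polynomial.natDegree_C]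
  obtain ⟨A, B, r, hr, hAB⟩ := bezout_of_sq P hPd hsqP
  have hL0 : P.leadingCoeff ≠ 0 := Polynomial.leadingCoeff_ne_zero.2 hP0
  obtain ⟨Q, hQ⟩ : ∃ Q, Q = r * P.leadingCoeff := ⟨_, rfl⟩
  have hQ0 : Q ≠ 0 := by rw [hQ]; exact mul_ne_zero hr hL0
  obtain ⟨B₀, hB₀⟩ := rp_ne_zero Q hQ0
  have hK : ∀ t : ℕ, ∃ K : ℝ, 0 ≤ K ∧ (2 ≤ t → ∀ (E : Type) [Field E] [Fintype E],
      t ∣ Fintype.card E - 1 → ∀ ψ : MulChar E ℂ, ψ ≠ 1 → ψ ^ t = 1 → ∀ f : Polynomial E,
      f.natDegree ≤ P.natDegree → f ≠ 0 → NP t f →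
      ‖∑ x : E, ψ (f.eval x)‖ ≤ K * Real.sqrt (Fintype.card E)) := by
    intro t
    by_cases ht : 2 ≤ t
    · obtain ⟨K, hK0, hK⟩ := wele t P.natDegree ht
      exact ⟨K, hK0, fun _ => hK⟩
    · exact ⟨0, le_rfl, fun h => absurd h ht⟩
  choose K hK0 hK using hK
  obtain ⟨K', hK'⟩ : ∃ K' : ℝ, K' = ∑ t ∈ range (D + 1), K t := ⟨_, rfl⟩
  have hK'0 : 0 ≤ K' := by rw [hK']; exact sum_nonneg fun t _ => hK0 t
  have hKt : ∀ t, t ≤ D → K t ≤ K' := by
    intro t ht
    rw [hK']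
    exact single_le_sum (f := K) (fun t _ => hK0 t) (mem_range.2 (by omega))
  refine ⟨K' + Q.totalDegree, by positivity, B₀, ?_⟩
  intro p _ hp t ht2 htD htp χ hχ1 hχt
  have hpp := (Fact.out : p.Prime)
  have hp0 : (0 : ℝ) < p := by exact_mod_cast hpp.pos
  have hp1 : (1 : ℝ) ≤ p := by exact_mod_cast hpp.one_lt.le
  have hsq : Real.sqrt p * Real.sqrt p = p := Real.mul_self_sqrt hp0.le
  have hs0 : 0 ≤ Real.sqrt p := Real.sqrt_nonneg _
  have hs1 : Real.sqrt p ≤ p := by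
    have : 1 ≤ Real.sqrt p := by rw [Real.one_le_sqrt]; exact hp1
    nlinarith
  have hsum : ∑ x : Fin (m + 1) → ZMod p, χ (MvPolynomial.aeval x F) =
      ∑ z : Fin m → ZMod p, ∑ y : ZMod p, χ (Polynomial.eval y (Polynomial.map
        (MvPolynomial.aeval z : MvPolynomial (Fin m) ℤ →ₐ[ℤ] ZMod p).toRingHom P)) := by
    rw [← Finset.sum_product', Finset.univ_product_univ]
    refine (Fintype.sum_equiv ((Equiv.prodComm _ _).trans (Fin.consEquiv (fun _ => ZMod p))) _ _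
      fun z => ?_).symm
    rw [hP, ← aeval_cons]
    rfl
  have hgood : ∀ z : Fin m → ZMod p, MvPolynomial.aeval z Q ≠ 0 →
      ‖∑ y : ZMod p, χ (Polynomial.eval y (Polynomial.map
        (MvPolynomial.aeval z : MvPolynomial (Fin m) ℤ →ₐ[ℤ] ZMod p).toRingHom P))‖ ≤ K' * Real.sqrt p := by
    intro z hz
    rw [hQ, map_mul] at hz
    have hz1 : (MvPolynomial.aeval z : MvPolynomial (Fin m) ℤ →ₐ[ℤ] ZMod p).toRingHom r ≠ 0 :=
      left_ne_zero_of_mul hz
    have hz2 : (MvPolynomial.aeval z : MvPolynomial (Fin m) ℤ →ₐ[ℤ] ZMod p).toRingHom P.leadingCoeff ≠ 0 :=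
      right_ne_zero_of_mul hz
    have h1 := squarefree_spec _ P A B r hAB hz1
    have h2 := Polynomial.natDegree_map_of_leadingCoeff_ne_zero _ hz2
    have h3 := hK t ht2 (ZMod p) (by rw [ZMod.card]; exact htp) χ hχ1 hχt (Polynomial.map
        (MvPolynomial.aeval z : MvPolynomial (Fin m) ℤ →ₐ[ℤ] ZMod p).toRingHom P) (by rw [h2]) h1.ne_zero
        (NP_of_squarefree _ h1 (by rw [h2]; exact hPd))
    rw [ZMod.card] at h3
    exact h3.trans (mul_le_mul_of_nonneg_right (hKt t htD) hs0)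
  have hbad : ∀ z : Fin m → ZMod p,
      ‖∑ y : ZMod p, χ (Polynomial.eval y (Polynomial.map
        (MvPolynomial.aeval z : MvPolynomial (Fin m) ℤ →ₐ[ℤ] ZMod p).toRingHom P))‖ ≤ p := by
    intro z
    refine (norm_sum_le _ _).trans ((sum_le_sum fun y _ =>
      Pool.Agent.H435R3.Weil.WELE.mc_norm_le_one χ _).trans ?_)
    rw [Finset.sum_const, card_univ, ZMod.card, nsmul_eq_mul, mul_one]
  have hcount := sz0 (p := p) Q le_rfl (hB₀ p hp)
  rw [hsum]
  have h5 : ‖∑ z : Fin m → ZMod p, ∑ y : ZMod p, χ (Polynomial.eval y (Polynomial.map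
        (MvPolynomial.aeval z : MvPolynomial (Fin m) ℤ →ₐ[ℤ] ZMod p).toRingHom P))‖ ≤
      ∑ z : Fin m → ZMod p, (K' * Real.sqrt p +
        if MvPolynomial.aeval z Q = 0 then (p : ℝ) else 0) := by
    refine (norm_sum_le _ _).trans (Finset.sum_le_sum fun z _ => ?_)
    split_ifs with hz
    · have := hbad z
      have h6 : 0 ≤ K' * Real.sqrt p := by positivity
      linarith
    · rw [add_zero]
      exact hgood z hz
  rw [Finset.sum_add_distrib, Finset.sum_const, ← Finset.sum_filter, Finset.sum_const, card_univ,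
    Fintype.card_fun, ZMod.card, Fintype.card_fin, nsmul_eq_mul, nsmul_eq_mul] at h5
  have e3 : (0 : ℝ) ≤ (p : ℝ) ^ m := by positivity
  push_cast at h5
  have h6 : ‖∑ z : Fin m → ZMod p, ∑ y : ZMod p, χ (Polynomial.eval y (Polynomial.map
        (MvPolynomial.aeval z : MvPolynomial (Fin m) ℤ →ₐ[ℤ] ZMod p).toRingHom P))‖ ≤
      (p : ℝ) ^ m * (K' * Real.sqrt p) + Q.totalDegree * (p : ℝ) ^ m := by linarith
  calc _ ≤ ((p : ℝ) ^ m * (K' * Real.sqrt p) + Q.totalDegree * (p : ℝ) ^ m) * Real.sqrt p :=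
        mul_le_mul_of_nonneg_right h6 hs0
    _ = (p : ℝ) ^ m * K' * (Real.sqrt p * Real.sqrt p) + Q.totalDegree * (p : ℝ) ^ m * Real.sqrt p := by ring
    _ ≤ (p : ℝ) ^ m * K' * p + Q.totalDegree * (p : ℝ) ^ m * p := by
        rw [hsq]
        have : (0 : ℝ) ≤ Q.totalDegree * (p : ℝ) ^ m := by positivity
        nlinarith
    _ = (K' + Q.totalDegree) * (p : ℝ) ^ (m + 1) := by rw [pow_succ]; ring

end Pool.Agent.Y837.SW
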