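import Pool.Agent.Y837.SW.NV0

/-!
# NV1: the linear independence step for sums
-/

set_option autoImplicit false

namespace Pool.Agent.Y837.SW

open Polynomial Finset

theorem nv1 (F : Type) [Field F] [Fintype F] (t : ℕ) (ht : 2 ≤ t) (f : F[X])
    (hf0 : f.eval 0 ≠ 0) (hpow : NP t f) (D Q : ℕ) (hQ : t * Q + 1 = Fintype.card F)
    (hdeg : t * (D + f.natDegree) < Fintype.card F) (J : ℕ) :
    ∀ k : Fin t → ℕ → F[X], (∀ i j, (k i j).natDegree ≤ D) →
    (∑ j ∈ range J, (∑ i : Fin t, k i j * f ^ ((i : ℕ) * Q)) * X ^ (j * Fintype.card F) = 0) →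
    ∀ i, ∀ j < J, k i j = 0 := by
  induction J with
  | zero => intro k _ _ i j hj; omega
  | succ J ih =>
    intro k hk hsum
    rw [Finset.sum_range_succ'] at hsum
    have e1 : ∑ j ∈ range J, (∑ i : Fin t, k i (j + 1) * f ^ ((i : ℕ) * Q)) *
        X ^ ((j + 1) * Fintype.card F) =
        X ^ Fintype.card F * ∑ j ∈ range J, (∑ i : Fin t, k i (j + 1) * f ^ ((i : ℕ) * Q)) *
          X ^ (j * Fintype.card F) := by
      rw [Finset.mul_sum]
      refine Finset.sum_congr rfl fun j _ => ?_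
      rw [Nat.succ_mul, pow_add]
      ring
    rw [e1, Nat.zero_mul, pow_zero, mul_one] at hsum
    have hdvd : (X : F[X]) ^ Fintype.card F ∣ ∑ i : Fin t, k i 0 * f ^ ((i : ℕ) * Q) := by
      refine ⟨-∑ j ∈ range J, (∑ i : Fin t, k i (j + 1) * f ^ ((i : ℕ) * Q)) *
          X ^ (j * Fintype.card F), ?_⟩
      linear_combination hsum
    have h0 := nv0 F t ht f hf0 hpow D Q hQ hdeg (fun i => k i 0) (fun i => hk i 0) hdvd
    have h00 : ∑ i : Fin t, k i 0 * f ^ ((i : ℕ) * Q) = 0 := by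
      apply Finset.sum_eq_zero
      intro i _
      rw [show k i 0 = 0 from h0 i, zero_mul]
    rw [h00, add_zero] at hsum
    have hrest := (mul_eq_zero.1 hsum).resolve_left (pow_ne_zero _ X_ne_zero)
    have h1 := ih (fun i j => k i (j + 1)) (fun i j => hk i (j + 1)) hrest
    intro i j hj
    rcases j with _ | j
    · exact h0 i
    · exact h1 i j (by omega)

end Pool.Agent.Y837.SW
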