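import Pool.Agent.Y837.SW.Chr
import Pool.Agent.Y837.SV.Crit3

set_option autoImplicit false
set_option linter.unusedVariables false

/-! # Pairs of weighted homogeneous polynomials modulo `p` (project SW, helper837) -/

namespace Pool.Agent.Y837.SW

open Finset
open Pool.Agent.Y837.SV (rp rp_eval rp_int rp_degree scale_aeval card_zpow_mul)

section

variable {p : ℕ} [Fact p.Prime]

/-- the zeros of a nonzero polynomial -/
theorem sz1 {m D : ℕ} (Q : MvPolynomial (Fin m) (ZMod p)) (hQ : Q.totalDegree ≤ D) (hQc : Q ≠ 0) :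
    ((univ.filter (fun x : Fin m → ZMod p => MvPolynomial.eval x Q = 0)).card : ℝ) * p ≤ D * (p : ℝ) ^ m := by
  have hp := (Fact.out : p.Prime)
  have h1 := MvPolynomial.schwartz_zippel_totalDegree hQc (univ : Finset (ZMod p))
  rw [card_univ, ZMod.card] at h1
  have h2 : (Fintype.piFinset (fun _ : Fin m => (univ : Finset (ZMod p)))).filter
      (fun f => MvPolynomial.eval f Q = 0) =
      univ.filter (fun x : Fin m → ZMod p => MvPolynomial.eval x Q = 0) := by
    ext x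
    simp
  have hpQ : (0 : ℚ≥0) < p := by exact_mod_cast hp.pos
  rw [div_le_div_iff₀ (by positivity) hpQ] at h1
  have h3 : (((Fintype.piFinset (fun _ : Fin m => (univ : Finset (ZMod p)))).filter
      (fun f => MvPolynomial.eval f Q = 0)).card) * p ≤ Q.totalDegree * p ^ m := by
    exact_mod_cast h1
  rw [h2] at h3
  have h4 := h3.trans (Nat.mul_le_mul_right _ hQ)
  exact_mod_cast h4

open Classical in
/-- the orbits of the scaling -/
theorem orbit_count {n T : ℕ} (F G : MvPolynomial (Fin n) ℤ) (w : Fin n → ℤ) (D : ℤ) (hD : D ≠ 0)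
    (hw : ∀ e ∈ F.support, ∑ i, w i * (e i : ℤ) = D) (r s : ZMod p) (hr : r ≠ 0)
    (H : MvPolynomial (Fin n) (ZMod p)) (hT : H.totalDegree ≤ T) (hH : H ≠ 0)
    (h0 : ∀ l : ZMod p, l ≠ 0 → ∀ x : Fin n → ZMod p, MvPolynomial.aeval x F = r → MvPolynomial.aeval x G = s →
      MvPolynomial.eval (fun i => x i * l ^ (w i)) H = 0) :
    (p : ℝ) ^ 2 * ((univ.filter (fun x : Fin n → ZMod p => MvPolynomial.aeval x F = r ∧
      MvPolynomial.aeval x G = s)).card : ℝ) ≤ 2 * (D.natAbs * T : ℕ) * (p : ℝ) ^ n := by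
  have hp := (Fact.out : p.Prime)
  have hp2 : (2 : ℝ) ≤ p := by exact_mod_cast hp.two_le
  obtain ⟨A, hA⟩ : ∃ A : Finset (Fin n → ZMod p), A = univ.filter (fun x : Fin n → ZMod p =>
    MvPolynomial.aeval x F = r ∧ MvPolynomial.aeval x G = s) := ⟨_, rfl⟩
  obtain ⟨Z, hZ⟩ : ∃ Z : Finset (Fin n → ZMod p), Z = univ.filter (fun x : Fin n → ZMod p =>
    MvPolynomial.eval x H = 0) := ⟨_, rfl⟩
  have hZc : (Z.card : ℝ) * p ≤ T * (p : ℝ) ^ n := by
    rw [hZ]
    exact sz1 H hT hH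
  rw [← hA]
  have h1 : ((univ.erase (0 : ZMod p)) ×ˢ A).card ≤ D.natAbs * Z.card := by
    refine Finset.card_le_mul_card_image_of_maps_to
      (f := fun q : ZMod p × (Fin n → ZMod p) => fun i => q.2 i * q.1 ^ (w i)) (t := Z) ?_ D.natAbs ?_
    · intro q hq
      rw [mem_product, mem_erase, hA, mem_filter] at hq
      rw [hZ, mem_filter]
      exact ⟨mem_univ _, h0 q.1 hq.1.1 q.2 hq.2.2.1 hq.2.2.2⟩
    · intro y _
      refine le_trans ?_ (card_zpow_mul D hD r (MvPolynomial.aeval y F) hr)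
      apply Finset.card_le_card_of_injOn (fun q => q.1)
      · intro q hq
        rw [Finset.mem_coe, mem_filter, mem_product, mem_erase, hA, mem_filter] at hq
        rw [Finset.mem_coe, mem_filter]
        refine ⟨mem_univ _, hq.1.1.1, ?_⟩
        rw [← hq.2, scale_aeval F w D hw q.2 q.1 hq.1.1.1, hq.1.2.2.1]
      · intro q hq q' hq' h
        rw [Finset.mem_coe, mem_filter, mem_product, mem_erase] at hq hq'
        have h2 : q.1 = q'.1 := h
        refine Prod.ext h2 ?_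
        funext i
        have h3 : q.2 i * q.1 ^ w i = q'.2 i * q'.1 ^ w i := congrFun (hq.2.trans hq'.2.symm) i
        rw [← h2] at h3
        exact mul_right_cancel₀ (zpow_ne_zero _ hq.1.1.1) h3
  rw [card_product, card_erase_of_mem (mem_univ _), card_univ, ZMod.card] at h1
  have h2 : ((p : ℝ) - 1) * A.card ≤ D.natAbs * Z.card := by
    have : (((p - 1) * A.card : ℕ) : ℝ) ≤ ((D.natAbs * Z.card : ℕ) : ℝ) := by exact_mod_cast h1
    push_cast [Nat.cast_sub hp.one_lt.le] at this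
    exact this
  have h3 : (0 : ℝ) ≤ A.card := Nat.cast_nonneg _
  have h4 : (0 : ℝ) ≤ (D.natAbs : ℝ) := Nat.cast_nonneg _
  push_cast
  calc (p : ℝ) ^ 2 * A.card ≤ (2 * p) * (((p : ℝ) - 1) * A.card) := by nlinarith [mul_nonneg (mul_nonneg (by linarith : (0:ℝ) ≤ p) (by linarith : (0:ℝ) ≤ p - 2)) h3]
    _ ≤ (2 * p) * (D.natAbs * Z.card) := mul_le_mul_of_nonneg_left h2 (by linarith)
    _ = 2 * D.natAbs * (Z.card * p) := by ring
    _ ≤ 2 * D.natAbs * (T * (p : ℝ) ^ n) := mul_le_mul_of_nonneg_left hZc (by positivity)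
    _ = 2 * (D.natAbs * T) * (p : ℝ) ^ n := by ring

end

/-- proportional squarefree polynomials -/
theorem prop_of_dvd {n : ℕ} (F G : MvPolynomial (Fin n) ℤ) (hG0 : G ≠ 0)
    (h1 : MvPolynomial.map (algebraMap ℤ ℚ) F ∣ MvPolynomial.map (algebraMap ℤ ℚ) G)
    (h2 : MvPolynomial.map (algebraMap ℤ ℚ) G ∣ MvPolynomial.map (algebraMap ℤ ℚ) F) :
    ∃ a b : ℤ, a ≠ 0 ∧ MvPolynomial.C a * F = MvPolynomial.C b * G := by
  obtain ⟨u, hu⟩ := associated_of_dvd_dvd h2 h1
  have h3 := u.isUnit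
  rw [MvPolynomial.isUnit_iff_totalDegree_of_isReduced] at h3
  obtain ⟨c, hc⟩ : ∃ c : ℚ, (u : MvPolynomial (Fin n) ℚ) = MvPolynomial.C c :=
    ⟨_, MvPolynomial.totalDegree_eq_zero_iff_eq_C.1 h3.2⟩
  refine ⟨(c.den : ℤ), c.num, by exact_mod_cast c.den_ne_zero, ?_⟩
  apply MvPolynomial.map_injective (algebraMap ℤ ℚ) (algebraMap ℤ ℚ).injective_int
  rw [map_mul, map_mul, MvPolynomial.map_C, MvPolynomial.map_C, ← hu, hc]
  have h4 : (algebraMap ℤ ℚ) (c.den : ℤ) * c = (algebraMap ℤ ℚ) c.num := by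
    have := Rat.mul_den_eq_num c
    rw [mul_comm]
    exact_mod_cast this
  rw [← h4, map_mul]
  ring

/-- powers of squarefree polynomials which are not proportional -/
theorem exists_points {n : ℕ} (F G : MvPolynomial (Fin n) ℤ)
    (hF : Squarefree (MvPolynomial.map (algebraMap ℤ ℚ) F))
    (hG : Squarefree (MvPolynomial.map (algebraMap ℤ ℚ) G)) (hF0 : F ≠ 0) (hG0 : G ≠ 0)
    (hne : ∀ a b : ℤ, a ≠ 0 → MvPolynomial.C a * F ≠ MvPolynomial.C b * G) (a b : ℕ) (ha : 0 < a) (hb : 0 < b) :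
    ∃ x y : Fin n → ℤ, MvPolynomial.eval x F ^ a * MvPolynomial.eval y G ^ b ≠
      MvPolynomial.eval y F ^ a * MvPolynomial.eval x G ^ b := by
  by_contra hcon
  push Not at hcon
  obtain ⟨y, hy⟩ : ∃ y, MvPolynomial.eval y G ≠ 0 := by
    by_contra h
    push Not at h
    apply hG0
    apply MvPolynomial.funext
    intro x
    rw [h x, map_zero]
  have h1 : MvPolynomial.C (MvPolynomial.eval y G ^ b) * F ^ a =
      MvPolynomial.C (MvPolynomial.eval y F ^ a) * G ^ b := by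
    apply MvPolynomial.funext
    intro x
    rw [map_mul, map_mul, MvPolynomial.eval_C, MvPolynomial.eval_C, map_pow (MvPolynomial.eval x) F,
      map_pow (MvPolynomial.eval x) G, mul_comm]
    exact hcon x y
  have hyG : MvPolynomial.eval y G ^ b ≠ 0 := pow_ne_zero _ hy
  have hyF : MvPolynomial.eval y F ^ a ≠ 0 := by
    intro h
    rw [h, map_zero, zero_mul] at h1
    exact (mul_ne_zero (MvPolynomial.C_ne_zero.2 hyG) (pow_ne_zero _ hF0)) h1
  have h2 := congrArg (MvPolynomial.map (algebraMap ℤ ℚ)) h1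
  rw [map_mul, map_mul, MvPolynomial.map_C, MvPolynomial.map_C, map_pow (MvPolynomial.map (algebraMap ℤ ℚ)) F,
    map_pow (MvPolynomial.map (algebraMap ℤ ℚ)) G] at h2
  have hu : ∀ z : ℤ, z ≠ 0 → IsUnit (MvPolynomial.C ((algebraMap ℤ ℚ) z) : MvPolynomial (Fin n) ℚ) := by
    intro z hz
    apply IsUnit.map
    rw [isUnit_iff_ne_zero, map_ne_zero_iff _ (algebraMap ℤ ℚ).injective_int]
    exact hz
  have d1 : MvPolynomial.map (algebraMap ℤ ℚ) F ∣ MvPolynomial.map (algebraMap ℤ ℚ) G := by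
    rw [← hF.dvd_pow_iff_dvd hb.ne', ← (hu _ hyF).dvd_mul_left, ← h2]
    exact (dvd_pow_self _ ha.ne').mul_left _
  have d2 : MvPolynomial.map (algebraMap ℤ ℚ) G ∣ MvPolynomial.map (algebraMap ℤ ℚ) F := by
    rw [← hG.dvd_pow_iff_dvd ha.ne', ← (hu _ hyG).dvd_mul_left, h2]
    exact (dvd_pow_self _ hb.ne').mul_left _
  obtain ⟨α, β, h3, h4⟩ := prop_of_dvd F G hG0 d1 d2
  exact hne α β h3 h4

end Pool.Agent.Y837.SW
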